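import Pool.Agent.Lib.MP_a1cc03_ag.LC.Defs

/-! # Permutations of the columns; minors of matrices of another type are zero -/

noncomputable section

namespace Pool.Agent.ZC.LC

open WeierstrassCurve

variable {K : Type} [Field K] [DecidableEq K] {ι : Type} [DecidableEq ι]
  (E : ι → WeierstrassCurve K) {n e : ℕ} (j : Fin n → ι) (κ : Fin e → ι)

theorem linMap_perm (σ : Equiv.Perm (Fin e)) (M : Fin e → Fin n → ℤ)
    (z : ∀ c, (E (κ c)).toAffine.Point) :
    linMap E j (κ ∘ σ) (M ∘ σ) (fun c => z (σ c)) = linMap E j κ M z := by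
  funext k
  change ∑ c, M (σ c) k • (Pi.single (κ (σ c)) (z (σ c)) : ∀ i, (E i).toAffine.Point) (j k)
    = ∑ c, M c k • (Pi.single (κ c) (z c) : ∀ i, (E i).toAffine.Point) (j k)
  exact Equiv.sum_comp σ
    (fun c => M c k • (Pi.single (κ c) (z c) : ∀ i, (E i).toAffine.Point) (j k))

theorem linCycle_perm (σ : Equiv.Perm (Fin e)) (M : Fin e → Fin n → ℤ)
    (a : ∀ k, (E (j k)).toAffine.Point) :
    linCycle E j (κ ∘ σ) (M ∘ σ) a = linCycle E j κ M a := by
  let T : (∀ c, (E (κ c)).toAffine.Point) ≃ (∀ c, (E ((κ ∘ σ) c)).toAffine.Point) :=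
    (Equiv.piCongrLeft (fun c => (E (κ c)).toAffine.Point) σ).symm
  have hT : ∀ z, T z = fun c => z (σ c) := fun z => rfl
  have h : ∀ z, linMap E j (κ ∘ σ) (M ∘ σ) (T z) = linMap E j κ M z :=
    fun z => linMap_perm E j κ σ M z
  unfold linCycle
  congr 1
  · refine Nat.card_congr (Equiv.subtypeEquiv T ?_).symm
    intro z
    rw [AddMonoidHom.mem_ker, AddMonoidHom.mem_ker, h]
  · congr 1
    ext x
    constructor
    · rintro ⟨z, rfl⟩
      refine ⟨T.symm z, ?_⟩
      change linMap E j κ M (T.symm z) + a = linMap E j (κ ∘ σ) (M ∘ σ) z + a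
      rw [← h, T.apply_symm_apply]
    · rintro ⟨z, rfl⟩
      refine ⟨T z, ?_⟩
      change linMap E j (κ ∘ σ) (M ∘ σ) (T z) + a = linMap E j κ M z + a
      rw [h]

theorem linCycle_perm' (σ : Equiv.Perm (Fin e)) (M : Fin e → Fin n → ℤ)
    (a : ∀ k, (E (j k)).toAffine.Point) (t : Fin e → ι) (ht : κ ∘ σ = t) :
    linCycle E j t (M ∘ σ) a = linCycle E j κ M a := by
  subst ht
  exact linCycle_perm E j κ σ M a

theorem minor_perm (σ : Equiv.Perm (Fin e)) (M : Fin e → Fin n → ℤ) (I : Fin e → Fin n) :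
    minor (M ∘ σ) I = ((Equiv.Perm.sign σ : ℤˣ) : ℤ) * minor M I := by
  unfold minor
  have h := Matrix.det_permute σ (Matrix.of fun c r => M c (I r))
  rw [Int.cast_id] at h
  rw [← h]
  rfl

theorem minor_snoc (M : Fin e → Fin n → ℤ) (w : Fin n → ℤ) (L : Fin (e + 1) → Fin n) :
    minor (Fin.snoc (α := fun _ => Fin n → ℤ) M w) L
      = ∑ r : Fin (e + 1), (-1) ^ ((Fin.last e : ℕ) + (r : ℕ)) * w (L r) * minor M (L ∘ r.succAbove) := by
  unfold minor
  rw [Matrix.det_succ_row _ (Fin.last e)]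
  refine Finset.sum_congr rfl fun r _ => ?_
  congr 1
  · congr 1
    simp
  · congr 1
    ext c r'
    simp

theorem pointMinor_perm (σ : Equiv.Perm (Fin e)) (M : Fin e → Fin n → ℤ)
    (a : ∀ k, (E (j k)).toAffine.Point) (L : Fin (e + 1) → Fin n) :
    pointMinor E j (M ∘ σ) a L = ((Equiv.Perm.sign σ : ℤˣ) : ℤ) • pointMinor E j M a L := by
  unfold pointMinor
  rw [Finset.smul_sum]
  refine Finset.sum_congr rfl fun k _ => ?_
  rw [smul_smul]
  congr 1
  rw [minor_snoc, minor_snoc, Finset.mul_sum]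
  refine Finset.sum_congr rfl fun r _ => ?_
  rw [minor_perm]
  ring

/-- A minor which is not zero determines the type of the matrix up to permutations. -/
theorem minor_eq_zero (M : Fin e → Fin n → ℤ) (hM : ∀ c k, κ c ≠ j k → M c k = 0)
    (I : Fin e → Fin n) (hI : ¬ ∃ σ : Equiv.Perm (Fin e), ∀ c, κ (σ c) = j (I c)) :
    minor M I = 0 := by
  unfold minor
  rw [Matrix.det_apply]
  refine Finset.sum_eq_zero fun σ _ => ?_
  have h : ∃ c, κ (σ c) ≠ j (I c) := by
    by_contra hc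
    push Not at hc
    exact hI ⟨σ, hc⟩
  obtain ⟨c, hc⟩ := h
  have h0 : ∏ i, (Matrix.of fun c r => M c (I r)) (σ i) i = 0 :=
    Finset.prod_eq_zero (Finset.mem_univ c) (hM (σ c) (I c) hc)
  rw [h0, smul_zero]

end Pool.Agent.ZC.LC
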