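import Pool.Agent.Lib.MP_a1cc03_ag.LC.QDefs
import Pool.Agent.Lib.MP_a1cc03_ag.LC.X2

/-! # Linear cycles on quotients of products of elliptic curves -/

noncomputable section

namespace Pool.Agent.ZC.LC

open WeierstrassCurve

variable {K : Type} [Field K] [DecidableEq K] {ι : Type} [DecidableEq ι]
  (E : ι → WeierstrassCurve K) {n e : ℕ} (j : Fin n → ι)

theorem single_mem (A : ∀ i, AddSubgroup (E i).toAffine.Point) {i₀ : ι} {y : (E i₀).toAffine.Point}
    (hy : y ∈ A i₀) (i : ι) : (Pi.single i₀ y : ∀ i, (E i).toAffine.Point) i ∈ A i := by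
  by_cases h : i = i₀
  · subst h
    rw [Pi.single_eq_same]
    exact hy
  · rw [Pi.single_eq_of_ne h]
    exact zero_mem _

theorem linMap_comp (κ : Fin e → ι) (R : Fin n → Fin n → ℤ) (hR : ∀ l k, j l ≠ j k → R l k = 0)
    (M : Fin e → Fin n → ℤ) (z : ∀ c, (E (κ c)).toAffine.Point) :
    linMap E j j R (linMap E j κ M z) = linMap E j κ (compMat R M) z := by
  funext k
  change ∑ l, R l k • (Pi.single (j l) (∑ c, M c l •
      (Pi.single (κ c) (z c) : ∀ i, (E i).toAffine.Point) (j l)) : ∀ i, (E i).toAffine.Point) (j k)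
    = ∑ c, (∑ l, M c l * R l k) • (Pi.single (κ c) (z c) : ∀ i, (E i).toAffine.Point) (j k)
  have h : ∀ l, R l k • (Pi.single (j l) (∑ c, M c l •
      (Pi.single (κ c) (z c) : ∀ i, (E i).toAffine.Point) (j l)) : ∀ i, (E i).toAffine.Point) (j k)
      = ∑ c, (M c l * R l k) • (Pi.single (κ c) (z c) : ∀ i, (E i).toAffine.Point) (j k) := by
    intro l
    by_cases hl : j l = j k
    · have h1 : ∀ (w : ∀ i, (E i).toAffine.Point) (i i' : ι), i = i' →
          (Pi.single i (w i) : ∀ i, (E i).toAffine.Point) i' = w i' := by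
        intro w i i' h
        subst h
        rw [Pi.single_eq_same]
      have h2 := h1 (fun i => ∑ c, M c l • (Pi.single (κ c) (z c) : ∀ i, (E i).toAffine.Point) i)
        (j l) (j k) hl
      rw [h2, Finset.smul_sum]
      refine Finset.sum_congr rfl fun c _ => ?_
      rw [smul_smul, mul_comm]
    · rw [hR l k hl, zero_smul]
      symm
      refine Finset.sum_eq_zero fun c _ => ?_
      rw [mul_zero, zero_smul]
  rw [Finset.sum_congr rfl fun l _ => h l, Finset.sum_comm]
  refine Finset.sum_congr rfl fun c _ => ?_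
  rw [Finset.sum_smul]

variable {G : Type} [Group G] [MulAction G (∀ k, (E (j k)).toAffine.Point)]

theorem linMap_inj {g : G} {R : Fin n → Fin n → ℤ} {t : ∀ k, (E (j k)).toAffine.Point}
    (hg : ∀ x : ∀ k, (E (j k)).toAffine.Point, g • x = affMap E j R t x) :
    Function.Injective (linMap E j j R) := by
  intro x y h
  apply MulAction.injective g
  change g • x = g • y
  rw [hg, hg, affMap, affMap, h]

theorem linCycle_smul (κ : Fin e → ι) {g : G} {R : Fin n → Fin n → ℤ}
    {t : ∀ k, (E (j k)).toAffine.Point} (hR : ∀ l k, j l ≠ j k → R l k = 0)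
    (hg : ∀ x : ∀ k, (E (j k)).toAffine.Point, g • x = affMap E j R t x)
    (M : Fin e → Fin n → ℤ) (a : ∀ k, (E (j k)).toAffine.Point) :
    linCycle E j κ (compMat R M) (g • a)
      = FreeAbelianGroup.map (fun Z => (fun x => g • x) '' Z) (linCycle E j κ M a) := by
  unfold linCycle
  rw [map_nsmul, FreeAbelianGroup.map_of_apply]
  congr 1
  · refine Nat.card_congr (Equiv.subtypeEquiv (Equiv.refl _) ?_)
    intro z
    rw [AddMonoidHom.mem_ker, AddMonoidHom.mem_ker, ← linMap_comp E j κ R hR]
    change linMap E j j R (linMap E j κ M z) = 0 ↔ linMap E j κ M z = 0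
    constructor
    · intro h
      apply linMap_inj E j hg
      rw [h, map_zero]
    · intro h
      rw [h, map_zero]
  · congr 1
    rw [← Set.range_comp]
    congr 1
    funext z
    simp only [Function.comp_apply]
    rw [hg, hg, affMap, affMap, map_add, linMap_comp E j κ R hR, add_assoc]

theorem sub_map_mem (g : G) (z : FreeAbelianGroup (Set (∀ k, (E (j k)).toAffine.Point))) :
    z - FreeAbelianGroup.map (fun Z => (fun x => g • x) '' Z) z ∈ OrbitRel E j G := by
  induction z using FreeAbelianGroup.induction_on with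
  | zero => rw [map_zero, sub_zero]; exact zero_mem _
  | of Z =>
    rw [FreeAbelianGroup.map_of_apply]
    exact AddSubgroup.subset_closure ⟨g, Z, rfl⟩
  | neg Z h =>
    rw [map_neg, neg_sub_neg, ← neg_sub]
    exact neg_mem h
  | add x y hx hy =>
    rw [map_add, add_sub_add_comm]
    exact add_mem hx hy

/-- The main theorem for quotients: if the class and the Abel-Jacobi image of the sum of all `g z` are
torsion, then `z` is torsion modulo `RatLin` and the cycles `[Z] - [gZ]`. -/
theorem main_quotient [Fintype G] (A : ∀ i, AddSubgroup (E i).toAffine.Point)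
    (hprod : ∀ z : FreeAbelianGroup (∀ k, (E (j k)).toAffine.Point),
        z ∈ AddSubgroup.closure (FreeAbelianGroup.of '' {x | ∀ k, x k ∈ A (j k)}) →
        degree (fun k => E (j k)) z = 0 → albanese (fun k => E (j k)) z = 0 →
        ∃ N : ℕ, 0 < N ∧ N • z ∈ RatEqPi (fun k => E (j k)))
    (R : G → Fin n → Fin n → ℤ) (t : G → ∀ k, (E (j k)).toAffine.Point)
    (hR : ∀ g l k, j l ≠ j k → R g l k = 0) (ht : ∀ g k, t g k ∈ A (j k))
    (hG : ∀ (g : G) (x : ∀ k, (E (j k)).toAffine.Point), g • x = affMap E j (R g) (t g) x)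
    {m : ℕ} (κ : Fin m → Fin e → ι) (c : Fin m → ℤ) (M : Fin m → Fin e → Fin n → ℤ)
    (a : Fin m → ∀ k, (E (j k)).toAffine.Point)
    (hM : ∀ s b k, κ s b ≠ j k → M s b k = 0) (ha : ∀ s k, a s k ∈ A (j k))
    (hcl : ∀ I J : Fin e → Fin n, ∑ g, ∑ s,
      c s * minor (compMat (R g) (M s)) I * minor (compMat (R g) (M s)) J = 0)
    (hAJ : ∀ (J : Fin e → Fin n) (L : Fin (e + 1) → Fin n), ∃ N : ℕ, 0 < N ∧
      N • ∑ g, ∑ s, (c s * minor (compMat (R g) (M s)) J) •
        pointMinor E j (compMat (R g) (M s)) (g • a s) L = 0) :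
    ∃ N : ℕ, 0 < N ∧ N • ∑ s, c s • linCycle E j (κ s) (M s) (a s) ∈
      (⨆ κ : Fin e → ι, RatLin E j κ) ⊔ OrbitRel E j G := by
  classical
  let φ : Fin (Fintype.card (G × Fin m)) ≃ G × Fin m := (Fintype.equivFin (G × Fin m)).symm
  have hsum : ∀ {B : Type} [AddCommMonoid B] (f : G → Fin m → B),
      ∑ q, f (φ q).1 (φ q).2 = ∑ g, ∑ s, f g s := by
    intro B _ f
    rw [Equiv.sum_comp φ (fun p : G × Fin m => f p.1 p.2), Fintype.sum_prod_type]
  obtain ⟨N, hN, hmem⟩ := main_mixed E j A hprod (fun q => κ (φ q).2) (fun q => c (φ q).2)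
    (fun q => compMat (R (φ q).1) (M (φ q).2)) (fun q => (φ q).1 • a (φ q).2)
    (by
      intro q b k h
      change ∑ l, M (φ q).2 b l * R (φ q).1 l k = 0
      refine Finset.sum_eq_zero fun l _ => ?_
      by_cases hl : j l = j k
      · rw [hM _ b l (by rw [hl]; exact h), zero_mul]
      · rw [hR _ l k hl, mul_zero])
    (by
      intro q k
      rw [hG]
      refine add_mem ?_ (ht _ _)
      change ∑ l, R (φ q).1 l k • (Pi.single (j l) (a (φ q).2 l) : ∀ i, (E i).toAffine.Point) (j k) ∈ A (j k)
      exact sum_mem fun l _ => zsmul_mem (single_mem E A (ha _ l) (j k)) _)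
    (by
      intro I J
      have := hcl I J
      rwa [← hsum (fun g s => c s * minor (compMat (R g) (M s)) I * minor (compMat (R g) (M s)) J)] at this)
    (by
      intro J L
      obtain ⟨N, hN, h⟩ := hAJ J L
      refine ⟨N, hN, ?_⟩
      rwa [← hsum (fun g s => (c s * minor (compMat (R g) (M s)) J) •
        pointMinor E j (compMat (R g) (M s)) (g • a s) L)] at h)
  rw [hsum (fun g s => c s • linCycle E j (κ s) (compMat (R g) (M s)) (g • a s))] at hmem
  set z := ∑ s, c s • linCycle E j (κ s) (M s) (a s) with hz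
  have hgz : ∀ g : G, ∑ s, c s • linCycle E j (κ s) (compMat (R g) (M s)) (g • a s)
      = FreeAbelianGroup.map (fun Z => (fun x => g • x) '' Z) z := by
    intro g
    rw [hz, map_sum]
    refine Finset.sum_congr rfl fun s _ => ?_
    rw [map_zsmul, linCycle_smul E j (κ s) (hR g) (hG g)]
  simp only [hgz] at hmem
  have hcard : 0 < Fintype.card G := Fintype.card_pos
  refine ⟨N * Fintype.card G, Nat.mul_pos hN hcard, ?_⟩
  have hsplit : (N * Fintype.card G) • z
      = N • ∑ g : G, FreeAbelianGroup.map (fun Z => (fun x => g • x) '' Z) z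
        + N • ∑ g : G, (z - FreeAbelianGroup.map (fun Z => (fun x => g • x) '' Z) z) := by
    rw [Finset.sum_sub_distrib, Finset.sum_const, Finset.card_univ, ← smul_add, add_sub_cancel, smul_smul]
  rw [hsplit]
  refine add_mem (AddSubgroup.mem_sup_left hmem) (AddSubgroup.mem_sup_right ?_)
  exact nsmul_mem (sum_mem fun g _ => sub_map_mem E j g z) _

theorem point_sub_map_mem (g : G) (z : FreeAbelianGroup (∀ k, (E (j k)).toAffine.Point)) :
    z - FreeAbelianGroup.map (fun x => g • x) z ∈ PointRel E j G := by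
  induction z using FreeAbelianGroup.induction_on with
  | zero => rw [map_zero, sub_zero]; exact zero_mem _
  | of x =>
    rw [FreeAbelianGroup.map_of_apply]
    exact AddSubgroup.subset_closure ⟨g, x, rfl⟩
  | neg x h =>
    rw [map_neg, neg_sub_neg, ← neg_sub]
    exact neg_mem h
  | add x y hx hy =>
    rw [map_add, add_sub_add_comm]
    exact add_mem hx hy

theorem affMap_mem (A : ∀ i, AddSubgroup (E i).toAffine.Point) (R : Fin n → Fin n → ℤ)
    (t x : ∀ k, (E (j k)).toAffine.Point) (ht : ∀ k, t k ∈ A (j k)) (hx : ∀ k, x k ∈ A (j k))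
    (k : Fin n) : affMap E j R t x k ∈ A (j k) := by
  refine add_mem ?_ (ht _)
  change ∑ l, R l k • (Pi.single (j l) (x l) : ∀ i, (E i).toAffine.Point) (j k) ∈ A (j k)
  exact sum_mem fun l _ => zsmul_mem (single_mem E A (hx l) (j k)) _

/-- Zero-cycles on quotients with trivial Albanese variety. -/
theorem points_quotient [Fintype G] (A : ∀ i, AddSubgroup (E i).toAffine.Point)
    (hprod : ∀ z : FreeAbelianGroup (∀ k, (E (j k)).toAffine.Point),
        z ∈ AddSubgroup.closure (FreeAbelianGroup.of '' {x | ∀ k, x k ∈ A (j k)}) →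
        degree (fun k => E (j k)) z = 0 → albanese (fun k => E (j k)) z = 0 →
        ∃ N : ℕ, 0 < N ∧ N • z ∈ RatEqPi (fun k => E (j k)))
    (R : G → Fin n → Fin n → ℤ) (t : G → ∀ k, (E (j k)).toAffine.Point)
    (ht : ∀ g k, t g k ∈ A (j k))
    (hG : ∀ (g : G) (x : ∀ k, (E (j k)).toAffine.Point), g • x = affMap E j (R g) (t g) x)
    (hreg : ∀ l k, ∑ g, R g l k = 0)
    (z : FreeAbelianGroup (∀ k, (E (j k)).toAffine.Point))
    (hz : z ∈ AddSubgroup.closure (FreeAbelianGroup.of '' {x | ∀ k, x k ∈ A (j k)}))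
    (hdeg : degree (fun k => E (j k)) z = 0) :
    ∃ N : ℕ, 0 < N ∧ N • z ∈ RatEqPi (fun k => E (j k)) ⊔ PointRel E j G := by
  classical
  set w : FreeAbelianGroup (∀ k, (E (j k)).toAffine.Point) :=
    ∑ g : G, FreeAbelianGroup.map (fun x => g • x) z with hw
  have hmem : ∀ g : G, FreeAbelianGroup.map (fun x => g • x) z ∈
      AddSubgroup.closure (FreeAbelianGroup.of '' {x | ∀ k, x k ∈ A (j k)}) := by
    intro g
    have h1 := AddSubgroup.mem_map_of_mem (FreeAbelianGroup.map fun x => g • x) hz
    rw [AddMonoidHom.map_closure] at h1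
    refine AddSubgroup.closure_mono ?_ h1
    rintro _ ⟨_, ⟨x, hx, rfl⟩, rfl⟩
    rw [FreeAbelianGroup.map_of_apply]
    refine ⟨g • x, fun k => ?_, rfl⟩
    rw [hG]
    exact affMap_mem E j A (R g) (t g) x (ht g) hx k
  have hdegg : ∀ (g : G) (y : FreeAbelianGroup (∀ k, (E (j k)).toAffine.Point)),
      degree (fun k => E (j k)) (FreeAbelianGroup.map (fun x => g • x) y)
        = degree (fun k => E (j k)) y := by
    intro g y
    induction y using FreeAbelianGroup.induction_on with
    | zero => simp
    | of x => rw [FreeAbelianGroup.map_of_apply]; simp [degree]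
    | neg x h => rw [map_neg, map_neg, map_neg, h]
    | add x y hx hy => rw [map_add, map_add, map_add, hx, hy]
  have halb : ∀ (y : FreeAbelianGroup (∀ k, (E (j k)).toAffine.Point)),
      ∑ g : G, albanese (fun k => E (j k)) (FreeAbelianGroup.map (fun x => g • x) y)
        = degree (fun k => E (j k)) y • ∑ g, t g := by
    intro y
    induction y using FreeAbelianGroup.induction_on with
    | zero => simp
    | of x =>
      have h1 : ∀ g : G, albanese (fun k => E (j k))
          (FreeAbelianGroup.map (fun x => g • x) (FreeAbelianGroup.of x))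
          = linMap E j j (R g) x + t g := by
        intro g
        rw [FreeAbelianGroup.map_of_apply]
        simp only [albanese, FreeAbelianGroup.lift_apply_of]
        rw [hG, affMap]
      have h2 : ∑ g : G, linMap E j j (R g) x = 0 := by
        funext k
        rw [Finset.sum_apply]
        change ∑ g, ∑ l, R g l k • (Pi.single (j l) (x l) : ∀ i, (E i).toAffine.Point) (j k) = 0
        rw [Finset.sum_comm]
        refine Finset.sum_eq_zero fun l _ => ?_
        rw [← Finset.sum_smul, hreg, zero_smul]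
      rw [Finset.sum_congr rfl fun g _ => h1 g, Finset.sum_add_distrib, h2, zero_add]
      simp [degree]
    | neg x h =>
      simp only [map_neg, Finset.sum_neg_distrib, h, neg_smul]
    | add x y hx hy =>
      simp only [map_add, Finset.sum_add_distrib, hx, hy, add_smul]
  obtain ⟨N, hN, h⟩ := hprod w (sum_mem fun g _ => hmem g)
    (by rw [hw, map_sum]; exact Finset.sum_eq_zero fun g _ => by rw [hdegg, hdeg])
    (by rw [hw, map_sum, halb, hdeg, zero_smul])
  refine ⟨N * Fintype.card G, Nat.mul_pos hN Fintype.card_pos, ?_⟩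
  have hsplit : (N * Fintype.card G) • z
      = N • w + N • ∑ g : G, (z - FreeAbelianGroup.map (fun x => g • x) z) := by
    rw [Finset.sum_sub_distrib, Finset.sum_const, Finset.card_univ, ← hw, ← smul_add,
      add_sub_cancel, smul_smul]
  rw [hsplit]
  exact add_mem (AddSubgroup.mem_sup_left h) (AddSubgroup.mem_sup_right
    (nsmul_mem (sum_mem fun g _ => point_sub_map_mem E j g z) _))

end Pool.Agent.ZC.LC
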