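import Mathlib

/-! # Row R1a: induction over permutations preserving classes -/

namespace Pool.Agent.ZC.LC

open Equiv

variable {ι C : Type*} [Fintype C] [DecidableEq C]

/-- **Row R1a.** Induction principle for permutations preserving classes: strong induction on the size of
the support; if `σ ≠ 1`, `σ c ≠ c`, then with `c' = σ⁻¹ c` (`κ c' = κ c`), `σ = (σ * swap c c') * swap c c'` and
`σ * swap c c'` fixes `c` and everything that `σ` fixes. -/
theorem class_swap_induction (κ : C → ι) (P : Perm C → Prop) (h1 : P 1)
    (hs : ∀ (σ : Perm C) (c c' : C), c ≠ c' → κ c = κ c' → (∀ x, κ (σ x) = κ x) → P σ →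
      P (σ * swap c c'))
    (σ : Perm C) (hσ : ∀ x, κ (σ x) = κ x) : P σ := by
  suffices H : ∀ n : ℕ, ∀ σ : Perm C, σ.support.card = n → (∀ x, κ (σ x) = κ x) → P σ from H _ σ rfl hσ
  intro n
  induction n using Nat.strong_induction_on with
  | _ n ih =>
    intro σ hn hσ
    by_cases h : σ = 1
    · rw [h]; exact h1
    · obtain ⟨c, hc⟩ : ∃ c, σ c ≠ c := by
        by_contra hcon
        push Not at hcon
        exact h (Equiv.ext hcon)
      set c' := σ⁻¹ c with hc'
      have hσc' : σ c' = c := by rw [hc']; simp
      have hne : c ≠ c' := by
        intro he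
        rw [← he] at hσc'
        exact hc hσc'
      have hκ : κ c = κ c' := by
        have := hσ c'
        rw [hσc'] at this
        exact this
      set τ : Perm C := σ * swap c c' with hτ
      have hτκ : ∀ x, κ (τ x) = κ x := by
        intro x
        rw [hτ, Perm.mul_apply, hσ]
        rcases eq_or_ne x c with rfl | h3
        · rw [swap_apply_left, hκ]
        · rcases eq_or_ne x c' with h4 | h4
          · rw [h4, swap_apply_right, hκ]
          · rw [swap_apply_of_ne_of_ne h3 h4]
      have hτc : τ c = c := by
        rw [hτ, Perm.mul_apply, swap_apply_left, hσc']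
      have hsub : τ.support ⊂ σ.support := by
        rw [Finset.ssubset_iff_of_subset]
        · exact ⟨c, Perm.mem_support.2 hc, fun h5 => Perm.mem_support.1 h5 hτc⟩
        · intro x hx
          rw [Perm.mem_support] at hx ⊢
          intro hσx
          rcases eq_or_ne x c with h3 | h3
          · exact hc (h3 ▸ hσx)
          · rcases eq_or_ne x c' with h4 | h4
            · rw [h4, hσc'] at hσx
              exact hne hσx
            · apply hx
              rw [hτ, Perm.mul_apply, swap_apply_of_ne_of_ne h3 h4, hσx]
      have hlt := Finset.card_lt_card hsub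
      have hP := ih _ (hn ▸ hlt) τ rfl hτκ
      have hfin := hs τ c c' hne hκ hτκ hP
      have hback : τ * swap c c' = σ := by
        rw [hτ, mul_assoc, swap_mul_self, mul_one]
      rwa [hback] at hfin

end Pool.Agent.ZC.LC
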