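import Mathlib

/-! # Multiquadratic functions: definitions (MP_a1cc03_ag, LinearCycles) -/

namespace Pool.Agent.ZC.LC

/-- `f` satisfies the parallelogram law in each of its `e` arguments. -/
def MultiQuad {e n : ℕ} {U : Type*} [AddCommGroup U] (f : (Fin e → Fin n → ℤ) → U) : Prop :=
  ∀ (M : Fin e → Fin n → ℤ) (c : Fin e) (u v : Fin n → ℤ),
    f (Function.update M c (u + v)) + f (Function.update M c (u - v))
      = 2 • f (Function.update M c u) + 2 • f (Function.update M c v)

/-- `F` is additive in `p c` and symmetric under `p c ↔ q c`, for the `c ∈ D`. -/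
structure PolOn {e n : ℕ} {U : Type*} [AddCommGroup U] (D : Finset (Fin e))
    (F : (Fin e → Fin n → ℤ) → (Fin e → Fin n → ℤ) → U) : Prop where
  add : ∀ c ∈ D, ∀ (p q : Fin e → Fin n → ℤ) (x y : Fin n → ℤ),
    F (Function.update p c (x + y)) q = F (Function.update p c x) q + F (Function.update p c y) q
  symm : ∀ c ∈ D, ∀ p q : Fin e → Fin n → ℤ,
    F (Function.update p c (q c)) (Function.update q c (p c)) = F p q

end Pool.Agent.ZC.LC
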