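import Pool.Agent.Lib.MP_a1cc03_ag.Stmt2

/-!
# Linear cycles on products of elliptic curves (MP_a1cc03_ag): definitions

`X` is the product of the Weierstrass curves `E (j k)`, `k < n` (so `j` says which curve is the `k`-th
factor). For `κ : Fin e → ι`, an integer matrix `M` with `e` columns `M c : Fin n → ℤ` defines the
homomorphism `z ↦ M z` from the product of the curves `E (κ c)`, `c < e`, to `X`; an entry `M c k` is used
only if `κ c = j k`, that is, if the two factors are the same curve. Subvarieties of `X` are represented by
their sets of `K`-points.
-/

noncomputable section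

namespace Pool.Agent.ZC

open WeierstrassCurve

variable {K : Type} [Field K] [DecidableEq K] {ι : Type} [DecidableEq ι]
  (E : ι → WeierstrassCurve K) {n e : ℕ} (j : Fin n → ι) (κ : Fin e → ι)

/-- The homomorphism `z ↦ M z`, with `k`-th coordinate the sum of the `M c k • z c` over all `c` with
`κ c = j k` (`Pi.single (κ c) (z c)` is the tuple with entry `z c` at `κ c` and all other entries `0`). -/
def linMap (M : Fin e → Fin n → ℤ) :
    (∀ c, (E (κ c)).toAffine.Point) →+ (∀ k, (E (j k)).toAffine.Point) where
  toFun z k := ∑ c, M c k • (Pi.single (κ c) (z c) : ∀ i, (E i).toAffine.Point) (j k)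
  map_zero' := by
    funext k
    simp
  map_add' z w := by
    funext k
    simp only [Pi.add_apply, Pi.single_add, smul_add, Finset.sum_add_distrib]

/-- The linear cycle `[M; a]`: the push-forward of the fundamental cycle of the product of the curves
`E (κ c)`, `c < e`, under `z ↦ M z + a`. It is the image, with multiplicity the number of points of the
kernel of `M`, if this kernel is finite, and zero otherwise. -/
def linCycle (M : Fin e → Fin n → ℤ) (a : ∀ k, (E (j k)).toAffine.Point) :
    FreeAbelianGroup (Set (∀ k, (E (j k)).toAffine.Point)) :=
  Nat.card (linMap E j κ M).ker • FreeAbelianGroup.of (Set.range fun z => linMap E j κ M z + a)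

/-- For a zero-cycle `z = ∑ m_a [a]` on `X`, the cycle `∑ m_a [M; a]`. -/
def translates (M : Fin e → Fin n → ℤ) :
    FreeAbelianGroup (∀ k, (E (j k)).toAffine.Point) →+
      FreeAbelianGroup (Set (∀ k, (E (j k)).toAffine.Point)) :=
  FreeAbelianGroup.lift fun a => linCycle E j κ M a

/-- Two kinds of cycles on `X` which are rationally equivalent to zero: the translates of `M` by a
zero-cycle which is rationally equivalent to zero; and the push-forward of the divisor of the function
`x(z_c) - x(z')` on the product of the curves `E (κ b)`, `b < e`, and one more copy of `E (κ c)` with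
coordinate `z'`, under the map `(z, z') ↦ M z + v z' + a`, where `M` has `c`-th column `u`. -/
inductive IsLinRel : FreeAbelianGroup (Set (∀ k, (E (j k)).toAffine.Point)) → Prop
  | translates (M : Fin e → Fin n → ℤ) (z : FreeAbelianGroup (∀ k, (E (j k)).toAffine.Point))
      (hz : z ∈ RatEqPi fun k => E (j k)) : IsLinRel (translates E j κ M z)
  | divisor (M : Fin e → Fin n → ℤ) (c : Fin e) (u v : Fin n → ℤ)
      (a : ∀ k, (E (j k)).toAffine.Point) :
      IsLinRel (linCycle E j κ (Function.update M c (u + v)) a
        + linCycle E j κ (Function.update M c (u - v)) a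
        - 2 • linCycle E j κ (Function.update M c u) a
        - 2 • linCycle E j κ (Function.update M c v) a)

/-- The subgroup generated by the cycles `IsLinRel`; all its elements are rationally equivalent to
zero. -/
def RatLin : AddSubgroup (FreeAbelianGroup (Set (∀ k, (E (j k)).toAffine.Point))) :=
  AddSubgroup.closure {z | IsLinRel E j κ z}

/-- The minor of `M` with the rows `I 0, …, I (e-1)` (all columns). -/
def minor {e n : ℕ} (M : Fin e → Fin n → ℤ) (I : Fin e → Fin n) : ℤ :=
  Matrix.det (Matrix.of fun c r => M c (I r))

/-- The minor of the matrix `(M | a)` with the rows `L 0, …, L e`, expanded along its last column `a`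
(whose entries are points); it is an element of the direct sum of the groups of points of all `E i`. -/
def pointMinor (M : Fin e → Fin n → ℤ) (a : ∀ k, (E (j k)).toAffine.Point)
    (L : Fin (e + 1) → Fin n) : ∀ i, (E i).toAffine.Point :=
  ∑ k, minor (Fin.snoc (α := fun _ => Fin n → ℤ) M (Pi.single k 1)) L •
    (Pi.single (j k) (a k) : ∀ i, (E i).toAffine.Point)

end Pool.Agent.ZC
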