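import Mathlib

/-! # Row E1: expansion of a multiadditive function in coordinates -/

namespace Pool.Agent.ZC.LC

variable {U : Type*} [AddCommGroup U] {C C' : Type*} [Fintype C] [Fintype C'] [DecidableEq C]
  [DecidableEq C'] {n : ℕ}

omit [Fintype C] in
/-- The multilinear map of a multiadditive function. -/
theorem exists_multilinear (F : (C → Fin n → ℤ) → U)
    (h : ∀ (p : C → Fin n → ℤ) (c : C) (x y : Fin n → ℤ),
      F (Function.update p c (x + y)) = F (Function.update p c x) + F (Function.update p c y)) :
    ∃ G : MultilinearMap ℤ (fun _ : C => Fin n → ℤ) U, ∀ p, G p = F p := by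
  have hi : ∃ i0 : DecidableEq C, ∀ (m : C → Fin n → ℤ) (i : C) (x y : Fin n → ℤ),
      F (@Function.update C (fun _ => Fin n → ℤ) i0 m i (x + y))
        = F (@Function.update C (fun _ => Fin n → ℤ) i0 m i x)
          + F (@Function.update C (fun _ => Fin n → ℤ) i0 m i y) := ⟨inferInstance, h⟩
  obtain ⟨i0, hi0⟩ := hi
  have h0 : ∀ (inst : DecidableEq C) (m : C → Fin n → ℤ) (i : C) (x y : Fin n → ℤ),
      F (@Function.update C (fun _ => Fin n → ℤ) inst m i (x + y))
        = F (@Function.update C (fun _ => Fin n → ℤ) inst m i x)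
          + F (@Function.update C (fun _ => Fin n → ℤ) inst m i y) := by
    intro inst m i x y
    rw [Subsingleton.elim inst i0]
    exact hi0 m i x y
  refine ⟨{ toFun := F, map_update_add' := fun {inst} m i x y => h0 inst m i x y,
            map_update_smul' := fun {inst} m i c x => ?_ }, fun _ => rfl⟩
  exact (AddMonoidHom.mk' (fun x => F (@Function.update C (fun _ => Fin n → ℤ) inst m i x))
    (h0 inst m i)).map_zsmul c x

/-- **Row E1a.** Proof: `F` is a `MultilinearMap ℤ (fun _ : C => Fin n → ℤ) U` (additivity gives `ℤ`-linearity);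
write `p c = ∑ k, p c k • Pi.single k 1` and use `MultilinearMap.map_sum` and `MultilinearMap.map_smul_univ`. -/
theorem expand_one (F : (C → Fin n → ℤ) → U)
    (h : ∀ (p : C → Fin n → ℤ) (c : C) (x y : Fin n → ℤ),
      F (Function.update p c (x + y)) = F (Function.update p c x) + F (Function.update p c y))
    (p : C → Fin n → ℤ) :
    F p = ∑ L : C → Fin n, (∏ c, p c (L c)) • F (fun c => Pi.single (L c) 1) := by
  have h1 : p = fun c => ∑ k : Fin n, p c k • (Pi.single k 1 : Fin n → ℤ) := by
    funext c j
    rw [Finset.sum_apply, Finset.sum_eq_single j]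
    · simp
    · intro b _ hb
      simp [hb.symm]
    · intro hj
      exact absurd (Finset.mem_univ j) hj
  obtain ⟨G, hG⟩ := exists_multilinear F h
  have h2 := G.map_sum (fun (c : C) (k : Fin n) => p c k • (Pi.single k 1 : Fin n → ℤ))
  have h3 : F p = ∑ L : C → Fin n,
      F (fun c => p c (L c) • (Pi.single (L c) 1 : Fin n → ℤ)) := by
    conv_lhs => rw [h1]
    rw [← hG, h2]
    exact Finset.sum_congr rfl fun L _ => hG _
  rw [h3]
  refine Finset.sum_congr rfl fun L _ => ?_
  rw [← hG, ← hG]
  exact G.map_smul_univ (fun c => p c (L c)) (fun c => Pi.single (L c) 1)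

/-- **Row E1b.** Apply `expand_one` to `p` and then to `q`. -/
theorem expand_two (F : (C' → Fin n → ℤ) → (C → Fin n → ℤ) → U)
    (h : ∀ (p : C' → Fin n → ℤ) (q : C → Fin n → ℤ) (c : C') (x y : Fin n → ℤ),
      F (Function.update p c (x + y)) q = F (Function.update p c x) q + F (Function.update p c y) q)
    (h' : ∀ (p : C' → Fin n → ℤ) (q : C → Fin n → ℤ) (c : C) (x y : Fin n → ℤ),
      F p (Function.update q c (x + y)) = F p (Function.update q c x) + F p (Function.update q c y))
    (p : C' → Fin n → ℤ) (q : C → Fin n → ℤ) :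
    F p q = ∑ L : C' → Fin n, ∑ J : C → Fin n, ((∏ c, p c (L c)) * ∏ c, q c (J c)) •
      F (fun c => Pi.single (L c) 1) (fun c => Pi.single (J c) 1) := by
  rw [expand_one (fun p => F p q) (fun p c x y => h p q c x y) p]
  refine Finset.sum_congr rfl fun L _ => ?_
  rw [expand_one (fun q => F (fun c => Pi.single (L c) 1) q)
    (fun q c x y => h' (fun c => Pi.single (L c) 1) q c x y) q, Finset.smul_sum]
  refine Finset.sum_congr rfl fun J _ => ?_
  rw [mul_smul]

end Pool.Agent.ZC.LC
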