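import Pool.Agent.Lib.MP_a1cc03_ag.LC.R1
import Pool.Agent.Lib.MP_a1cc03_ag.LC.E1

/-! # Row G1: the doubly alternating sum in coordinates -/

namespace Pool.Agent.ZC.LC

open Equiv

variable {U : Type*} [AddCommGroup U] {ι C C' : Type*} [Fintype C] [Fintype C'] [DecidableEq C]
  [DecidableEq C'] [DecidableEq ι] {n : ℕ}

/-- **Row G1a.** `u` is compatible with the classes (`j` on rows, `κ` on columns), and so is `L`. Then the
determinant is the sum over the permutations preserving classes. Proof: `Matrix.det_apply'`; if `τ` does not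
preserve classes, `κ (τ c) ≠ κ c = j (L c)` for some `c`, so the factor `u (τ c) (L c)` is zero; if
`L` is not compatible and `τ` preserves classes then the product is zero as well (second statement). -/
theorem det_class (j : Fin n → ι) (κ : C → ι) (u : C → Fin n → ℤ) (hu : ∀ c k, κ c ≠ j k → u c k = 0)
    (L : C → Fin n) :
    (∑ τ : Perm C with ∀ c, κ (τ c) = κ c, ((Perm.sign τ : ℤˣ) : ℤ) * ∏ c, u (τ c) (L c))
      = if ∀ c, j (L c) = κ c then Matrix.det (Matrix.of fun c r => u c (L r)) else 0 := by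
  classical
  split_ifs with hL
  · rw [Matrix.det_apply']
    rw [Finset.sum_filter]
    refine Finset.sum_congr rfl fun τ _ => ?_
    simp only [Matrix.of_apply]
    split_ifs with h
    · rfl
    · push Not at h
      obtain ⟨c, hc⟩ := h
      rw [Finset.prod_eq_zero (Finset.mem_univ c), mul_zero]
      exact hu _ _ (by rw [hL c]; exact hc)
  · refine Finset.sum_eq_zero fun τ hτ => ?_
    push Not at hL
    obtain ⟨c, hc⟩ := hL
    rw [Finset.prod_eq_zero (Finset.mem_univ c), mul_zero]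
    refine hu _ _ ?_
    rw [(Finset.mem_filter.1 hτ).2 c]
    exact fun h => hc h.symm

/-- **Row G1b.** Proof: `expand_two` (E1) for every `F (u ∘ τ) (u ∘ inc ∘ σ)`, exchange the sums, factor, and
`det_class` (G1a) twice (for `C'`, `κ`, `u` and for `C`, `κ ∘ inc`, `u ∘ inc`). -/
theorem double_sum_coord (inc : C → C') (j : Fin n → ι) (κ : C' → ι)
    (F : (C' → Fin n → ℤ) → (C → Fin n → ℤ) → U)
    (h : ∀ (p : C' → Fin n → ℤ) (q : C → Fin n → ℤ) (c : C') (x y : Fin n → ℤ),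
      F (Function.update p c (x + y)) q = F (Function.update p c x) q + F (Function.update p c y) q)
    (h' : ∀ (p : C' → Fin n → ℤ) (q : C → Fin n → ℤ) (c : C) (x y : Fin n → ℤ),
      F p (Function.update q c (x + y)) = F p (Function.update q c x) + F p (Function.update q c y))
    (u : C' → Fin n → ℤ) (hu : ∀ c k, κ c ≠ j k → u c k = 0) :
    ∑ τ : Perm C' with ∀ c, κ (τ c) = κ c, ∑ σ : Perm C with ∀ c, κ (inc (σ c)) = κ (inc c),
        (((Perm.sign τ : ℤˣ) : ℤ) * ((Perm.sign σ : ℤˣ) : ℤ)) • F (u ∘ τ) (u ∘ inc ∘ σ)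
      = ∑ L : C' → Fin n, ∑ J : C → Fin n,
          (Matrix.det (Matrix.of fun c r => u c (L r)) *
            Matrix.det (Matrix.of fun c r => u (inc c) (J r))) •
          (if (∀ c, j (L c) = κ c) ∧ (∀ c, j (J c) = κ (inc c)) then
            F (fun c => Pi.single (L c) 1) (fun c => Pi.single (J c) 1) else 0) := by
  classical
  have e1 : ∀ (τ : Perm C') (σ : Perm C),
      (((Perm.sign τ : ℤˣ) : ℤ) * ((Perm.sign σ : ℤˣ) : ℤ)) • F (u ∘ τ) (u ∘ inc ∘ σ)
      = ∑ L : C' → Fin n, ∑ J : C → Fin n,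
        ((((Perm.sign τ : ℤˣ) : ℤ) * ∏ c, u (τ c) (L c)) *
          (((Perm.sign σ : ℤˣ) : ℤ) * ∏ c, u (inc (σ c)) (J c))) •
          F (fun c => Pi.single (L c) 1) (fun c => Pi.single (J c) 1) := by
    intro τ σ
    rw [expand_two F h h', Finset.smul_sum]
    refine Finset.sum_congr rfl fun L _ => ?_
    rw [Finset.smul_sum]
    refine Finset.sum_congr rfl fun J _ => ?_
    rw [smul_smul]
    congr 1
    simp only [Function.comp]
    ring
  have e2 : ∑ τ : Perm C' with ∀ c, κ (τ c) = κ c, ∑ σ : Perm C with ∀ c, κ (inc (σ c)) = κ (inc c),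
        (((Perm.sign τ : ℤˣ) : ℤ) * ((Perm.sign σ : ℤˣ) : ℤ)) • F (u ∘ τ) (u ∘ inc ∘ σ)
      = ∑ τ : Perm C' with ∀ c, κ (τ c) = κ c, ∑ σ : Perm C with ∀ c, κ (inc (σ c)) = κ (inc c),
        ∑ L : C' → Fin n, ∑ J : C → Fin n,
        ((((Perm.sign τ : ℤˣ) : ℤ) * ∏ c, u (τ c) (L c)) *
          (((Perm.sign σ : ℤˣ) : ℤ) * ∏ c, u (inc (σ c)) (J c))) •
          F (fun c => Pi.single (L c) 1) (fun c => Pi.single (J c) 1) :=
    Finset.sum_congr rfl fun τ _ => Finset.sum_congr rfl fun σ _ => e1 τ σ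
  rw [e2]
  have e3 : ∀ τ : Perm C', ∑ σ : Perm C with ∀ c, κ (inc (σ c)) = κ (inc c),
        ∑ L : C' → Fin n, ∑ J : C → Fin n,
        ((((Perm.sign τ : ℤˣ) : ℤ) * ∏ c, u (τ c) (L c)) *
          (((Perm.sign σ : ℤˣ) : ℤ) * ∏ c, u (inc (σ c)) (J c))) •
          F (fun c => Pi.single (L c) 1) (fun c => Pi.single (J c) 1)
      = ∑ L : C' → Fin n, ∑ J : C → Fin n,
        ((((Perm.sign τ : ℤˣ) : ℤ) * ∏ c, u (τ c) (L c)) *
          (∑ σ : Perm C with ∀ c, κ (inc (σ c)) = κ (inc c),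
            ((Perm.sign σ : ℤˣ) : ℤ) * ∏ c, u (inc (σ c)) (J c))) •
          F (fun c => Pi.single (L c) 1) (fun c => Pi.single (J c) 1) := by
    intro τ
    rw [Finset.sum_comm]
    refine Finset.sum_congr rfl fun L _ => ?_
    rw [Finset.sum_comm]
    refine Finset.sum_congr rfl fun J _ => ?_
    rw [Finset.mul_sum, Finset.sum_smul]
  rw [Finset.sum_congr rfl fun τ _ => e3 τ, Finset.sum_comm]
  refine Finset.sum_congr rfl fun L _ => ?_
  rw [Finset.sum_comm]
  refine Finset.sum_congr rfl fun J _ => ?_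
  rw [← Finset.sum_smul, ← Finset.sum_mul]
  have d1 := det_class j κ u hu L
  have d2 := det_class j (fun c => κ (inc c)) (fun c => u (inc c)) (fun c k hk => hu _ _ hk) J
  rw [d1, d2]
  by_cases hL : ∀ c, j (L c) = κ c
  · by_cases hJ : ∀ c, j (J c) = κ (inc c)
    · rw [if_pos hL, if_pos hJ, if_pos ⟨hL, hJ⟩]
    · rw [if_neg hJ, if_neg (show ¬ ((∀ c, j (L c) = κ c) ∧ (∀ c, j (J c) = κ (inc c))) from
        fun hh => hJ hh.2), mul_zero, zero_smul, smul_zero]
  · rw [if_neg hL, if_neg (show ¬ ((∀ c, j (L c) = κ c) ∧ (∀ c, j (J c) = κ (inc c))) from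
      fun hh => hL hh.1), zero_mul, zero_smul, smul_zero]

end Pool.Agent.ZC.LC
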