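import Pool.Agent.Lib.MP_a1cc03_ag.LC.Defs
import Pool.Agent.Lib.MP_a1cc03_ag.LC.AlgDefs
import Pool.Agent.Lib.MP_a1cc03_ag.LC.L1

/-! # Row H1: the two functions to which the first fundamental theorem is applied -/

noncomputable section

namespace Pool.Agent.ZC.LC

open WeierstrassCurve

variable {K : Type} [Field K] [DecidableEq K] {ι : Type} [DecidableEq ι]
  (E : ι → WeierstrassCurve K) {n e : ℕ} (j : Fin n → ι) (κ : Fin e → ι)
  {U : Type} [AddCommGroup U] [Module ℚ U]
  (q : FreeAbelianGroup (Set (∀ k, (E (j k)).toAffine.Point)) →+ U)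

/-- **Row H1a.** From `IsLinRel.divisor`, `AddSubgroup.subset_closure`. -/
theorem class_multiQuad (hq : ∀ z ∈ RatLin E j κ, q z = 0) (a : ∀ k, (E (j k)).toAffine.Point) :
    MultiQuad (fun M : Fin e → Fin n → ℤ => q (linCycle E j κ M a)) := by
  intro M c u v
  have h := hq _ (AddSubgroup.subset_closure (IsLinRel.divisor (E := E) (j := j) (κ := κ) M c u v a))
  simp only [map_sub, map_add, map_nsmul] at h
  rw [sub_eq_zero, sub_eq_iff_eq_add] at h
  change q (linCycle E j κ (Function.update M c (u + v)) a)
    + q (linCycle E j κ (Function.update M c (u - v)) a)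
    = 2 • q (linCycle E j κ (Function.update M c u) a)
    + 2 • q (linCycle E j κ (Function.update M c v) a)
  rw [h, add_comm]

/-- The point `v ⊗ x`. -/
def h1pt (i : ι) (v : Fin n → ℤ) (x : (E i).toAffine.Point) : ∀ k, (E (j k)).toAffine.Point :=
  fun k => v k • (Pi.single i x : ∀ i, (E i).toAffine.Point) (j k)

theorem h1_single_mem (A : ∀ i, AddSubgroup (E i).toAffine.Point) (i i' : ι)
    (x : (E i).toAffine.Point) (hx : x ∈ A i) :
    (Pi.single i x : ∀ i, (E i).toAffine.Point) i' ∈ A i' := by
  by_cases h : i' = i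
  · subst h
    rw [Pi.single_eq_same]
    exact hx
  · rw [Pi.single_eq_of_ne h]
    exact zero_mem _

theorem h1pt_mem (A : ∀ i, AddSubgroup (E i).toAffine.Point) (i : ι) (v : Fin n → ℤ)
    (x : (E i).toAffine.Point) (hx : x ∈ A i) (k : Fin n) : h1pt E j i v x k ∈ A (j k) :=
  zsmul_mem (h1_single_mem E A i (j k) x hx) _

theorem h1pt_add_left (i : ι) (v w : Fin n → ℤ) (x : (E i).toAffine.Point) :
    h1pt E j i (v + w) x = h1pt E j i v x + h1pt E j i w x := by
  funext k
  simp only [h1pt, Pi.add_apply, add_smul]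

theorem h1pt_add_right (i : ι) (v : Fin n → ℤ) (x y : (E i).toAffine.Point) :
    h1pt E j i v (x + y) = h1pt E j i v x + h1pt E j i v y := by
  funext k
  simp only [h1pt, Pi.add_apply, Pi.single_add, smul_add]

/-- **Row H1b.** `f₁ M v x = q [M; v ⊗ x] - q [M; 0]`, where `v ⊗ x` is the point with coordinates
`v k • x` for `j k = i` and `0` otherwise. Additive in `v` and in `x` by `hadd` (`v ⊗ (x + y) = v ⊗ x + v ⊗ y`,
`(v + w) ⊗ x = v ⊗ x + w ⊗ x`, all coordinates in `A`); the other properties from `class_multiQuad` (H1a),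
`linCycle_add_col` (L1) and `linCycle_col` (L2b). -/
theorem exists_pointed (hq : ∀ z ∈ RatLin E j κ, q z = 0)
    (A : ∀ i, AddSubgroup (E i).toAffine.Point)
    (hadd : ∀ (M : Fin e → Fin n → ℤ) (a b : ∀ k, (E (j k)).toAffine.Point),
      (∀ k, a k ∈ A (j k)) → (∀ k, b k ∈ A (j k)) →
      q (linCycle E j κ M (a + b)) - q (linCycle E j κ M 0)
        = (q (linCycle E j κ M a) - q (linCycle E j κ M 0))
          + (q (linCycle E j κ M b) - q (linCycle E j κ M 0))) (i : ι) :
    ∃ f₁ : (Fin e → Fin n → ℤ) → ((Fin n → ℤ) →+ (A i →+ U)),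
      (∀ M v (x : A i), f₁ M v x
        = q (linCycle E j κ M (fun k => v k •
            (Pi.single i (x : (E i).toAffine.Point) : ∀ i, (E i).toAffine.Point) (j k)))
          - q (linCycle E j κ M 0)) ∧
      MultiQuad f₁ ∧
      (∀ (M : Fin e → Fin n → ℤ) (c c' : Fin e), c ≠ c' → κ c = κ c' →
        f₁ (Function.update M c (M c + M c')) = f₁ M) ∧
      (∀ (M : Fin e → Fin n → ℤ) (c : Fin e), κ c = i → f₁ M (M c) = 0) := by
  refine ⟨fun M => AddMonoidHom.mk' (fun v => AddMonoidHom.mk' (fun x : A i =>
      q (linCycle E j κ M (h1pt E j i v (x : (E i).toAffine.Point)))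
        - q (linCycle E j κ M 0)) ?_) ?_, ?_, ?_, ?_, ?_⟩
  · intro x y
    have h := hadd M (h1pt E j i v x) (h1pt E j i v y) (h1pt_mem E j A i v x x.2)
      (h1pt_mem E j A i v y y.2)
    rw [← h1pt_add_right] at h
    exact h
  · intro v w
    ext x
    have h := hadd M (h1pt E j i v x) (h1pt E j i w x) (h1pt_mem E j A i v x x.2)
      (h1pt_mem E j A i w x x.2)
    rw [← h1pt_add_left] at h
    exact h
  · intro M v x
    rfl
  · intro M c u v
    refine AddMonoidHom.ext fun w => AddMonoidHom.ext fun x => ?_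
    have h1 := class_multiQuad E j κ q hq (h1pt E j i w (x : (E i).toAffine.Point)) M c u v
    have h2 := class_multiQuad E j κ q hq 0 M c u v
    simp only at h1 h2
    change (q (linCycle E j κ (Function.update M c (u + v)) (h1pt E j i w x))
        - q (linCycle E j κ (Function.update M c (u + v)) 0))
      + (q (linCycle E j κ (Function.update M c (u - v)) (h1pt E j i w x))
        - q (linCycle E j κ (Function.update M c (u - v)) 0))
      = 2 • (q (linCycle E j κ (Function.update M c u) (h1pt E j i w x))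
        - q (linCycle E j κ (Function.update M c u) 0))
      + 2 • (q (linCycle E j κ (Function.update M c v) (h1pt E j i w x))
        - q (linCycle E j κ (Function.update M c v) 0))
    rw [sub_add_sub_comm, h1, h2, smul_sub, smul_sub, sub_add_sub_comm]
  · intro M c c' hcc hκ
    refine AddMonoidHom.ext fun v => AddMonoidHom.ext fun x => ?_
    change q (linCycle E j κ (Function.update M c (M c + M c')) (h1pt E j i v x))
        - q (linCycle E j κ (Function.update M c (M c + M c')) 0)
      = q (linCycle E j κ M (h1pt E j i v x)) - q (linCycle E j κ M 0)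
    rw [linCycle_add_col E j κ M c c' hcc hκ, linCycle_add_col E j κ M c c' hcc hκ]
  · intro M c hκ
    ext x
    change q (linCycle E j κ M (fun k => M c k •
      (Pi.single i (x : (E i).toAffine.Point) : ∀ i, (E i).toAffine.Point) (j k)))
        - q (linCycle E j κ M 0) = 0
    rw [linCycle_col E j κ M c i hκ, sub_self]

/-- **Row H1c.** `a = ∑ k, Pi.single k (a k)`, `hadd`; induction over a finset of indices `k`. -/
theorem pointed_sum (A : ∀ i, AddSubgroup (E i).toAffine.Point)
    (hadd : ∀ (M : Fin e → Fin n → ℤ) (a b : ∀ k, (E (j k)).toAffine.Point),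
      (∀ k, a k ∈ A (j k)) → (∀ k, b k ∈ A (j k)) →
      q (linCycle E j κ M (a + b)) - q (linCycle E j κ M 0)
        = (q (linCycle E j κ M a) - q (linCycle E j κ M 0))
          + (q (linCycle E j κ M b) - q (linCycle E j κ M 0)))
    (M : Fin e → Fin n → ℤ) (a : ∀ k, (E (j k)).toAffine.Point) (ha : ∀ k, a k ∈ A (j k)) :
    q (linCycle E j κ M a) - q (linCycle E j κ M 0)
      = ∑ k, (q (linCycle E j κ M (Pi.single k (a k))) - q (linCycle E j κ M 0)) := by
  have hsing : ∀ k k' : Fin n, (Pi.single k (a k) : ∀ k, (E (j k)).toAffine.Point) k' ∈ A (j k') := by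
    intro k k'
    by_cases h : k' = k
    · subst h
      rw [Pi.single_eq_same]
      exact ha _
    · rw [Pi.single_eq_of_ne h]
      exact zero_mem _
  have key : ∀ s : Finset (Fin n),
      q (linCycle E j κ M (∑ k ∈ s, Pi.single k (a k))) - q (linCycle E j κ M 0)
        = ∑ k ∈ s, (q (linCycle E j κ M (Pi.single k (a k))) - q (linCycle E j κ M 0)) := by
    intro s
    induction s using Finset.induction_on with
    | empty => rw [Finset.sum_empty, Finset.sum_empty, sub_self]
    | insert k s hk ih =>
      rw [Finset.sum_insert hk, Finset.sum_insert hk, ← ih]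
      refine hadd M _ _ (hsing k) ?_
      intro k'
      rw [Finset.sum_apply]
      exact sum_mem fun c _ => hsing c k'
  have h := key Finset.univ
  rw [Finset.univ_sum_single] at h
  exact h

end Pool.Agent.ZC.LC
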