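import Pool.Agent.Lib.MP_a1cc03_ag.LC.Defs

/-! # Row H2: the pointed part of the sum -/

noncomputable section

namespace Pool.Agent.ZC.LC

open WeierstrassCurve

variable {K : Type} [Field K] [DecidableEq K] {ι : Type} [DecidableEq ι]
  (E : ι → WeierstrassCurve K) {n e : ℕ} (j : Fin n → ι) 

theorem h2_smul_eq_zero {U : Type} [AddCommGroup U] [Module ℚ U] {N : ℕ} (hN : 0 < N) {x : U}
    (h : N • x = 0) : x = 0 := by
  have h1 : ((N : ℕ) : ℚ) • x = 0 := by
    rw [Nat.cast_smul_eq_nsmul]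
    exact h
  rcases smul_eq_zero.1 h1 with h2 | h2
  · exact absurd h2 (Nat.cast_ne_zero.2 hN.ne')
  · exact h2

/-- **Row H2.** The combination of the pointed parts. Here `g i L J : A i →+ U` are additive. For
fixed `L`, `J` the map `x ↦ ∑ i, g i L J (x i)` (the sum over the `i` in the range of `j`) is additive on the tuples with `x i ∈ A i`; it sends
`Pi.single (j k) (a k)` to `g (j k) L J (a k)`, so it sends `pointMinor E j M a L` to
`∑ k, minor (snoc M (e_k)) L • g (j k) L J (a k)`; and it kills torsion (`U` is a `ℚ`-module). -/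
theorem pointed_zero {U : Type} [AddCommGroup U] [Module ℚ U]
    (A : ∀ i, AddSubgroup (E i).toAffine.Point)
    (g : ∀ i, (Fin (e + 1) → Fin n) → (Fin e → Fin n) → (A i →+ U))
    {m : ℕ} (c : Fin m → ℤ) (M : Fin m → Fin e → Fin n → ℤ)
    (a : Fin m → ∀ k, (E (j k)).toAffine.Point) (ha : ∀ s k, a s k ∈ A (j k))
    (hAJ : ∀ (J : Fin e → Fin n) (L : Fin (e + 1) → Fin n), ∃ N : ℕ, 0 < N ∧
      N • ∑ s, (c s * minor (M s) J) • pointMinor E j (M s) (a s) L = 0) :
    ∑ s, c s • ∑ k, ∑ L : Fin (e + 1) → Fin n, ∑ J : Fin e → Fin n,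
      (minor (Fin.snoc (α := fun _ => Fin n → ℤ) (M s) (Pi.single k 1)) L * minor (M s) J) •
        g (j k) L J ⟨a s k, ha s k⟩ = 0 := by
  classical
  -- rearrange the sums
  have h0 : ∑ s, c s • ∑ k, ∑ L : Fin (e + 1) → Fin n, ∑ J : Fin e → Fin n,
      (minor (Fin.snoc (α := fun _ => Fin n → ℤ) (M s) (Pi.single k 1)) L * minor (M s) J) •
        g (j k) L J ⟨a s k, ha s k⟩ =
      ∑ L : Fin (e + 1) → Fin n, ∑ J : Fin e → Fin n, ∑ s, (c s * minor (M s) J) • ∑ k,
        minor (Fin.snoc (α := fun _ => Fin n → ℤ) (M s) (Pi.single k 1)) L •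
          g (j k) L J ⟨a s k, ha s k⟩ := by
    simp only [Finset.smul_sum, smul_smul]
    rw [Finset.sum_comm]
    have h1 : ∀ (k : Fin n), ∑ s, ∑ L : Fin (e + 1) → Fin n, ∑ J : Fin e → Fin n,
        (c s * (minor (Fin.snoc (α := fun _ => Fin n → ℤ) (M s) (Pi.single k 1)) L *
          minor (M s) J)) • g (j k) L J ⟨a s k, ha s k⟩ =
        ∑ L : Fin (e + 1) → Fin n, ∑ J : Fin e → Fin n, ∑ s,
          (c s * minor (M s) J * minor (Fin.snoc (α := fun _ => Fin n → ℤ) (M s)
            (Pi.single k 1)) L) • g (j k) L J ⟨a s k, ha s k⟩ := by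
      intro k
      rw [Finset.sum_comm]
      refine Finset.sum_congr rfl fun L _ => ?_
      rw [Finset.sum_comm]
      refine Finset.sum_congr rfl fun J _ => Finset.sum_congr rfl fun s _ => ?_
      congr 1
      ring
    rw [Finset.sum_congr rfl fun k _ => h1 k, Finset.sum_comm]
    refine Finset.sum_congr rfl fun L _ => ?_
    rw [Finset.sum_comm]
    refine Finset.sum_congr rfl fun J _ => ?_
    rw [Finset.sum_comm]
  rw [h0]
  refine Finset.sum_eq_zero fun L _ => Finset.sum_eq_zero fun J _ => ?_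
  obtain ⟨N, hN, hzero⟩ := hAJ J L
  -- the additive map on tuples
  obtain ⟨Φ, hΦ⟩ : ∃ Φ : (∀ i, A i) →+ U, ∀ x, Φ x = ∑ i ∈ Finset.univ.image j,
      g i L J (x i) := by
    refine ⟨{ toFun := fun x => ∑ i ∈ Finset.univ.image j, g i L J (x i), map_zero' := by simp, map_add' := ?_ },
      fun x => rfl⟩
    intro x y
    simp only [Pi.add_apply, map_add, Finset.sum_add_distrib]
  -- the lift of the pointed minors
  obtain ⟨pm, hpm⟩ : ∃ pm : Fin m → (∀ i, A i), pm = fun s =>
    ∑ k, minor (Fin.snoc (α := fun _ => Fin n → ℤ) (M s) (Pi.single k 1)) L •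
      (Pi.single (j k) (⟨a s k, ha s k⟩ : A (j k)) : ∀ i, A i) := ⟨_, rfl⟩
  have hcoe : ∀ (s : Fin m) (i : ι),
      ((pm s i : A i) : (E i).toAffine.Point) = pointMinor E j (M s) (a s) L i := by
    intro s i
    rw [hpm]
    unfold pointMinor
    simp only [Finset.sum_apply, Pi.smul_apply, AddSubgroup.val_finsetSum, AddSubgroup.coe_zsmul]
    refine Finset.sum_congr rfl fun k _ => ?_
    congr 1
    by_cases hk : j k = i
    · subst hk
      simp
    · rw [Pi.single_eq_of_ne (Ne.symm hk), Pi.single_eq_of_ne (Ne.symm hk)]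
      rfl
  have hΦpm : ∀ s, Φ (pm s) = ∑ k,
      minor (Fin.snoc (α := fun _ => Fin n → ℤ) (M s) (Pi.single k 1)) L •
        g (j k) L J ⟨a s k, ha s k⟩ := by
    intro s
    rw [hpm]
    simp only [map_sum, map_zsmul]
    refine Finset.sum_congr rfl fun k _ => ?_
    congr 1
    rw [hΦ, Finset.sum_eq_single (j k)]
    · rw [Pi.single_eq_same]
    · intro i _ hi
      rw [Pi.single_eq_of_ne hi, map_zero]
    · intro h
      exact absurd (Finset.mem_image_of_mem j (Finset.mem_univ k)) h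
  have hker : N • ∑ s, (c s * minor (M s) J) • pm s = 0 := by
    funext i
    apply Subtype.ext
    have hz := congrFun hzero i
    simp only [Finset.sum_apply, Pi.smul_apply, Pi.zero_apply, AddSubgroup.val_finsetSum,
      AddSubgroup.coe_zsmul, AddSubgroup.coe_nsmul, ZeroMemClass.coe_zero, hcoe] at hz ⊢
    exact hz
  have h2 := congrArg Φ hker
  rw [map_nsmul, map_zero, map_sum] at h2
  have h3 := h2_smul_eq_zero hN h2
  rw [← h3]
  refine Finset.sum_congr rfl fun s _ => ?_
  rw [map_zsmul, hΦpm]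

end Pool.Agent.ZC.LC
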