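import Mathlib

/-! # Row L5: passing to rational coefficients -/

namespace Pool.Agent.ZC.LC

/-- **Row L5.** Take `U = TensorProduct ℤ ℚ (G ⧸ R)` and `q g = 1 ⊗ₜ (class of g)`; kernel: Mathlib's
`IsLocalizedModule.eq_zero_iff` with `isLocalizedModule_iff_isBaseChange (nonZeroDivisors ℤ) ℚ`. -/
theorem exists_rational (G : Type) [AddCommGroup G] (R : AddSubgroup G) :
    ∃ (U : Type) (_ : AddCommGroup U) (_ : Module ℚ U) (q : G →+ U),
      ∀ g, q g = 0 ↔ ∃ N : ℕ, 0 < N ∧ N • g ∈ R := by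
  refine ⟨TensorProduct ℤ ℚ (G ⧸ R), inferInstance, inferInstance,
    (TensorProduct.mk ℤ ℚ (G ⧸ R) 1).toAddMonoidHom.comp (QuotientAddGroup.mk' R), fun g => ?_⟩
  have h := IsLocalizedModule.eq_zero_iff (nonZeroDivisors ℤ) (TensorProduct.mk ℤ ℚ (G ⧸ R) 1)
    (m := (g : G ⧸ R))
  have e : ((TensorProduct.mk ℤ ℚ (G ⧸ R) 1).toAddMonoidHom.comp (QuotientAddGroup.mk' R)) g
      = TensorProduct.mk ℤ ℚ (G ⧸ R) 1 (g : G ⧸ R) := rfl
  rw [e, h]
  constructor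
  · rintro ⟨⟨c, hc⟩, hcg⟩
    have hc0 : c ≠ 0 := nonZeroDivisors.ne_zero hc
    have h1 : c • (g : G ⧸ R) = 0 := hcg
    refine ⟨c.natAbs, Int.natAbs_pos.2 hc0, ?_⟩
    have h2 : (c.natAbs : ℤ) • (g : G ⧸ R) = 0 := by
      rcases Int.natAbs_eq c with h | h
      · rw [← h]
        exact h1
      · have h3 : (c.natAbs : ℤ) = -c := by omega
        rw [h3, neg_smul, h1, neg_zero]
    rw [natCast_zsmul, ← QuotientAddGroup.mk_nsmul] at h2
    exact (QuotientAddGroup.eq_zero_iff _).1 h2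
  · rintro ⟨N, hN, hg⟩
    refine ⟨⟨(N : ℤ), mem_nonZeroDivisors_of_ne_zero (by exact_mod_cast hN.ne')⟩, ?_⟩
    have h1 : ((N : ℤ)) • (g : G ⧸ R) = 0 := by
      rw [natCast_zsmul, ← QuotientAddGroup.mk_nsmul]
      exact (QuotientAddGroup.eq_zero_iff _).2 hg
    exact h1

end Pool.Agent.ZC.LC
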