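import Pool.Agent.Lib.MP_a1cc03_ag.LC.Defs

/-! # Row L6: additivity in the point -/

noncomputable section

namespace Pool.Agent.ZC.LC

open WeierstrassCurve

variable {K : Type} [Field K] [DecidableEq K] {ι : Type} [DecidableEq ι]
  (E : ι → WeierstrassCurve K) {n e : ℕ} (j : Fin n → ι) (κ : Fin e → ι)

/-- **Row L6.** Apply `hprod` to `z = [a + b] - [a] - [b] + [0]` and the homomorphism `translates E j κ M`
(`IsLinRel.translates`, `AddSubgroup.subset_closure`, `FreeAbelianGroup.lift_apply_of`). -/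
theorem linCycle_additive (A : ∀ i, AddSubgroup (E i).toAffine.Point)
    (hprod : ∀ z : FreeAbelianGroup (∀ k, (E (j k)).toAffine.Point),
        z ∈ AddSubgroup.closure (FreeAbelianGroup.of '' {x | ∀ k, x k ∈ A (j k)}) →
        degree (fun k => E (j k)) z = 0 → albanese (fun k => E (j k)) z = 0 →
        ∃ N : ℕ, 0 < N ∧ N • z ∈ RatEqPi (fun k => E (j k)))
    (M : Fin e → Fin n → ℤ) (a b : ∀ k, (E (j k)).toAffine.Point)
    (ha : ∀ k, a k ∈ A (j k)) (hb : ∀ k, b k ∈ A (j k)) :
    ∃ N : ℕ, 0 < N ∧ N • (linCycle E j κ M (a + b) - linCycle E j κ M a - linCycle E j κ M b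
      + linCycle E j κ M 0) ∈ RatLin E j κ := by
  have hmem : ∀ x : ∀ k, (E (j k)).toAffine.Point, (∀ k, x k ∈ A (j k)) →
      FreeAbelianGroup.of x ∈
        AddSubgroup.closure (FreeAbelianGroup.of '' {x | ∀ k, x k ∈ A (j k)}) :=
    fun x hx => AddSubgroup.subset_closure ⟨x, hx, rfl⟩
  obtain ⟨N, hN, h⟩ := hprod
    (FreeAbelianGroup.of (a + b) - FreeAbelianGroup.of a - FreeAbelianGroup.of b
      + FreeAbelianGroup.of 0)
    (add_mem (sub_mem (sub_mem (hmem _ fun k => add_mem (ha k) (hb k)) (hmem a ha)) (hmem b hb))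
      (hmem 0 fun k => zero_mem _))
    (by simp [degree]) (by simp [albanese])
  refine ⟨N, hN, ?_⟩
  have h1 := AddSubgroup.subset_closure (IsLinRel.translates (E := E) (j := j) (κ := κ) M _ h)
  have h2 : translates E j κ M (N • (FreeAbelianGroup.of (a + b) - FreeAbelianGroup.of a
      - FreeAbelianGroup.of b + FreeAbelianGroup.of 0))
      = N • (linCycle E j κ M (a + b) - linCycle E j κ M a - linCycle E j κ M b
        + linCycle E j κ M 0) := by
    simp [translates]
  rw [h2] at h1
  exact h1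

end Pool.Agent.ZC.LC
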