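import Pool.Agent.Lib.MP_a1cc03_ag.LC.Q1

/-! # Row P1: polarization of a multiquadratic function -/

namespace Pool.Agent.ZC.LC

variable {k₀ : Type*} [Field k₀] [CharZero k₀] {U : Type*} [AddCommGroup U] [Module k₀ U] {e n : ℕ}

include k₀ in
/-- Inductive form of the polarization. -/
theorem P1_aux (f : (Fin e → Fin n → ℤ) → U) (hf : MultiQuad f) (D : Finset (Fin e)) :
    ∃ F : (Fin e → Fin n → ℤ) → (Fin e → Fin n → ℤ) → U,
      PolOn D F ∧
      (∀ c, c ∉ D → ∀ (p q : Fin e → Fin n → ℤ) (x : Fin n → ℤ), F p (Function.update q c x) = F p q) ∧
      (∀ c, c ∉ D → ∀ (p q : Fin e → Fin n → ℤ) (u v : Fin n → ℤ),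
        F (Function.update p c (u + v)) q + F (Function.update p c (u - v)) q
          = 2 • F (Function.update p c u) q + 2 • F (Function.update p c v) q) ∧
      ∀ M, F M M = f M := by
  classical
  induction D using Finset.induction_on with
  | empty =>
    refine ⟨fun p _ => f p, ⟨fun c hc => absurd hc (Finset.notMem_empty c),
      fun c hc => absurd hc (Finset.notMem_empty c)⟩, fun _ _ _ _ _ => rfl, ?_, fun _ => rfl⟩
    intro c _ p q u v
    exact hf p c u v
  | insert c D hcD ih =>
    obtain ⟨F, hP, hI, hQ, hM⟩ := ih
    have hpol : ∀ p q : Fin e → Fin n → ℤ, F (Function.update p c 0) q = 0 ∧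
        ∀ x x' y, F (Function.update p c (x + x' + y)) q - F (Function.update p c (x + x')) q
            - F (Function.update p c y) q
          = (F (Function.update p c (x + y)) q - F (Function.update p c x) q
              - F (Function.update p c y) q)
            + (F (Function.update p c (x' + y)) q - F (Function.update p c x') q
              - F (Function.update p c y) q) := by
      intro p q
      obtain ⟨h0, _, h2⟩ := polar_add (k₀ := k₀) (fun x => F (Function.update p c x) q)
        (fun u v => hQ c hcD p q u v)
      exact ⟨h0, h2⟩
    refine ⟨fun p q => (1 / 2 : k₀) • (F (Function.update p c (p c + q c)) q - F p q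
      - F (Function.update p c (q c)) q), ⟨?_, ?_⟩, ?_, ?_, ?_⟩
    · intro d hd p q x y
      rcases Finset.mem_insert.1 hd with rfl | hdD
      · simp only [Function.update_idem, Function.update_self]
        rw [(hpol p q).2 x y (q d), smul_add]
      · have hdc : d ≠ c := fun h => hcD (h ▸ hdD)
        simp only [Function.update_of_ne hdc.symm]
        rw [Function.update_comm hdc, Function.update_comm hdc, Function.update_comm hdc,
          Function.update_comm hdc, Function.update_comm hdc, Function.update_comm hdc,
          hP.add d hdD, hP.add d hdD, hP.add d hdD, ← smul_add]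
        congr 1
        abel
    · intro d hd p q
      rcases Finset.mem_insert.1 hd with rfl | hdD
      · simp only [Function.update_idem, Function.update_self, Function.update_eq_self]
        rw [hI d hcD, hI d hcD, hI d hcD, add_comm (q d) (p d)]
        congr 1
        abel
      · have hdc : d ≠ c := fun h => hcD (h ▸ hdD)
        simp only [Function.update_of_ne hdc.symm]
        have key : ∀ z : Fin n → ℤ,
            F (Function.update (Function.update p d (q d)) c z) (Function.update q d (p d))
              = F (Function.update p c z) q := by
          intro z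
          have h1 := hP.symm d hdD (Function.update p c z) q
          rw [Function.update_of_ne hdc] at h1
          rw [Function.update_comm hdc]
          exact h1
        rw [key, key, hP.symm d hdD p q]
    · intro d hd p q x
      have hdc : d ≠ c := fun h => hd (h ▸ Finset.mem_insert_self c D)
      have hdD : d ∉ D := fun h => hd (Finset.mem_insert_of_mem h)
      simp only [Function.update_of_ne hdc.symm]
      rw [hI d hdD, hI d hdD, hI d hdD]
    · intro d hd p q u v
      have hdc : d ≠ c := fun h => hd (h ▸ Finset.mem_insert_self c D)
      have hdD : d ∉ D := fun h => hd (Finset.mem_insert_of_mem h)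
      simp only [Function.update_of_ne hdc.symm]
      have e1 := hQ d hdD (Function.update p c (p c + q c)) q u v
      have e2 := hQ d hdD p q u v
      have e3 := hQ d hdD (Function.update p c (q c)) q u v
      simp only [Function.update_comm hdc]
      rw [← smul_add]
      rw [smul_comm (2 : ℕ) (1 / 2 : k₀), smul_comm (2 : ℕ) (1 / 2 : k₀), ← smul_add]
      congr 1
      have e4 : ∀ A1 A2 A3 B1 B2 B3 : U, A1 - A2 - A3 + (B1 - B2 - B3)
          = (A1 + B1) - (A2 + B2) - (A3 + B3) := by
        intros; abel
      rw [e4, e1, e2, e3]
      simp only [smul_sub]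
      abel
    · intro M
      have h1 := hQ c hcD M M (M c) (M c)
      rw [sub_self, (hpol M M).1, Function.update_eq_self, add_zero] at h1
      simp only [Function.update_eq_self]
      rw [h1, ← hM M]
      have e5 : (2 • F M M + 2 • F M M - F M M - F M M) = (2 : k₀) • F M M := by
        rw [two_smul k₀]
        simp only [two_smul ℕ]
        abel
      rw [e5, smul_smul]
      norm_num

include k₀ in
/-- **Row P1.** Proof: by `Finset.induction_on D` prove for every finset `D` of `Fin e`:
`∃ F, PolOn D F ∧ (∀ c ∉ D, ∀ q x, F p (update q c x) = F p q) ∧ (∀ c ∉ D, F satisfies the parallelogram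
law in p c, for all p q) ∧ ∀ M, F M M = f M`. Start: `F p q = f p`. Step `insert c D`:
`F' p q = (1/2 : k₀) • (F (update p c (p c + q c)) q - F p q - F (update p c (q c)) q)`; use `polar_add` (Q1)
for `h x = F (update p c x) q` (additivity in `p c`), commute updates at different places. Take
`D = Finset.univ`. -/
theorem polarize (f : (Fin e → Fin n → ℤ) → U) (hf : MultiQuad f) :
    ∃ F : (Fin e → Fin n → ℤ) → (Fin e → Fin n → ℤ) → U,
      PolOn Finset.univ F ∧ ∀ M, F M M = f M := by
  obtain ⟨F, h1, _, _, h4⟩ := P1_aux (k₀ := k₀) f hf Finset.univ
  exact ⟨F, h1, h4⟩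

end Pool.Agent.ZC.LC
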