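import Pool.Agent.Lib.MP_a1cc03_ag.LC.P2

/-! # Row P5: symmetry under exchange of two columns -/

namespace Pool.Agent.ZC.LC

variable {k₀ : Type*} [Field k₀] [CharZero k₀] {U : Type*} [AddCommGroup U] [Module k₀ U] {e n : ℕ}

include k₀ in
/-- **Row P5a.** `f` multiquadratic and invariant under adding column `c` to column `c'` and `c'` to `c`
(for all matrices). Then `f` is invariant under exchanging the two columns. Proof: `f` is even in each
column (parallelogram law with `u = 0`, and `f = 0` if a column is zero); columns `(u, v) → (u + v, v)`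
`→ (u + v, -v) → (u + v, u) → (u + v, -u) → (v, -u) → (v, u)`, each step preserves `f`. -/
theorem swap_invariant (f : (Fin e → Fin n → ℤ) → U) (hf : MultiQuad f) (c c' : Fin e) (hcc : c ≠ c')
    (h1 : ∀ M : Fin e → Fin n → ℤ, f (Function.update M c' (M c' + M c)) = f M)
    (h2 : ∀ M : Fin e → Fin n → ℤ, f (Function.update M c (M c + M c')) = f M)
    (M : Fin e → Fin n → ℤ) : f (M ∘ Equiv.swap c c') = f M := by
  classical
  have hzero : ∀ (M : Fin e → Fin n → ℤ) (b : Fin e), f (Function.update M b 0) = 0 := by
    intro M b
    have h3 := hf M b 0 0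
    rw [add_zero, sub_zero] at h3
    refine p2_two k₀ ?_
    have h4 : f (Function.update M b 0) + f (Function.update M b 0) =
        (2 • f (Function.update M b 0) + 2 • f (Function.update M b 0)) -
          (f (Function.update M b 0) + f (Function.update M b 0)) := by abel
    rw [h4, h3, sub_self]
  have heven : ∀ (M : Fin e → Fin n → ℤ) (b : Fin e) (v : Fin n → ℤ),
      f (Function.update M b (-v)) = f (Function.update M b v) := by
    intro M b v
    have h3 := hf M b 0 v
    rw [zero_add, zero_sub, hzero, smul_zero, zero_add, two_smul] at h3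
    exact add_left_cancel h3
  let W : (Fin n → ℤ) → (Fin n → ℤ) → (Fin e → Fin n → ℤ) :=
    fun u v => Function.update (Function.update M c u) c' v
  have W1 : ∀ u v v', Function.update (W u v) c' v' = W u v' := by
    intro u v v'
    simp only [W, Function.update_idem]
  have W2 : ∀ u v u', Function.update (W u v) c u' = W u' v := by
    intro u v u'
    simp only [W]
    rw [Function.update_comm hcc.symm, Function.update_idem]
  have Wc : ∀ u v, W u v c = u := by
    intro u v
    simp only [W]
    rw [Function.update_of_ne hcc, Function.update_self]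
  have Wc' : ∀ u v, W u v c' = v := by
    intro u v
    simp only [W]
    rw [Function.update_self]
  have g1 : ∀ u v, f (W u (v + u)) = f (W u v) := by
    intro u v
    have h3 := h1 (W u v)
    rwa [Wc, Wc', W1] at h3
  have g2 : ∀ u v, f (W (u + v) v) = f (W u v) := by
    intro u v
    have h3 := h2 (W u v)
    rwa [Wc, Wc', W2] at h3
  have g3 : ∀ u v, f (W u (-v)) = f (W u v) := by
    intro u v
    have h3 := heven (W u v) c' v
    rwa [W1, W1] at h3
  have e1 : W (M c') (M c) = M ∘ Equiv.swap c c' := by
    funext b
    rcases eq_or_ne b c with rfl | hbc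
    · rw [Wc, Function.comp_apply, Equiv.swap_apply_left]
    · rcases eq_or_ne b c' with rfl | hbc'
      · rw [Wc', Function.comp_apply, Equiv.swap_apply_right]
      · simp only [W]
        rw [Function.update_of_ne hbc', Function.update_of_ne hbc, Function.comp_apply,
          Equiv.swap_apply_of_ne_of_ne hbc hbc']
  have e2 : W (M c) (M c') = M := by
    simp only [W]
    rw [Function.update_eq_self, Function.update_eq_self]
  have fin : ∀ u v, f (W v u) = f (W u v) := by
    intro u v
    have s1 : f (W u v) = f (W (u + v) u) := by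
      rw [← g2 u v, ← g3 (u + v) v, ← g1 (u + v) (-v)]
      congr 2
      abel
    have s2 : f (W (u + v) u) = f (W v (-u)) := by
      rw [← g3 (u + v) u, ← g2 (u + v) (-u)]
      congr 2
      abel
    rw [s1, s2, g3]
  rw [← e1, fin, e2]

include k₀ in
/-- **Row P5b.** Proof: `vanish_of_diag` (P2) with `D = univ` for
`(p, q) ↦ F (p ∘ swap c c') (q ∘ swap c c') - F p q`. -/
theorem pol_swap (F : (Fin e → Fin n → ℤ) → (Fin e → Fin n → ℤ) → U) (hF : PolOn Finset.univ F)
    (c c' : Fin e)
    (h : ∀ M : Fin e → Fin n → ℤ, F (M ∘ Equiv.swap c c') (M ∘ Equiv.swap c c') = F M M)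
    (p q : Fin e → Fin n → ℤ) :
    F (p ∘ Equiv.swap c c') (q ∘ Equiv.swap c c') = F p q := by
  classical
  have key := vanish_of_diag (k₀ := k₀) Finset.univ (fun p q : Fin e → Fin n → ℤ =>
    F (p ∘ Equiv.swap c c') (q ∘ Equiv.swap c c') - F p q) ⟨?_, ?_⟩ ?_ p q
  · exact sub_eq_zero.mp key
  · intro b _ p q x y
    simp only [Function.update_comp_equiv, hF.add _ (Finset.mem_univ _)]
    abel
  · intro b _ p q
    have h1 := hF.symm b (Finset.mem_univ b) p q
    have h2 := hF.symm ((Equiv.swap c c').symm b) (Finset.mem_univ _) (p ∘ Equiv.swap c c')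
      (q ∘ Equiv.swap c c')
    simp only [Function.comp_apply, Equiv.apply_symm_apply] at h2
    simp only [Function.update_comp_equiv, h1, h2]
  · intro p q hpq
    have h1 : p = q := funext fun b => hpq b (Finset.mem_univ b)
    rw [h1]
    exact sub_eq_zero.mpr (h q)

end Pool.Agent.ZC.LC
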