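import Pool.Agent.Lib.MP_a1cc03_ag.LC.Defs
import Pool.Agent.Lib.MP_a1cc03_ag.LC.P1
import Pool.Agent.Lib.MP_a1cc03_ag.LC.P3
import Pool.Agent.Lib.MP_a1cc03_ag.LC.P5
import Pool.Agent.Lib.MP_a1cc03_ag.LC.G1

/-! # Row T0: the first fundamental theorem in degree two -/

namespace Pool.Agent.ZC.LC

variable {k₀ : Type*} [Field k₀] [CharZero k₀] {U : Type*} [AddCommGroup U] [Module k₀ U] {ι : Type*}
  [DecidableEq ι] {e n : ℕ}

include k₀ in
/-- **Row T0.** A multiquadratic function which is invariant under column operations (in each class) is a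
linear combination of products of two minors.
Proof: `F` from `polarize` (P1). `f M = 0` if two columns `c ≠ c'` of the same class are equal: `f (update M c 0) = 0`
(parallelogram law with `u = v = 0`), and `M = update M₀ c (M₀ c + M₀ c')` for `M₀ = update M c 0`. `exchange` (P3)
gives `(Z)`, `swap_invariant` and `pol_swap` (P5) give `(S)`. Apply `double_sum` (R1) with `C = C' = Fin e`, `inc = id`,
and `double_sum_coord` (G1) with `u = M`; divide by `R`: `g I J = R⁻¹ • (if ... then F .. .. else 0)`. The scalar
`minor` is `Matrix.det (Matrix.of ..)` by definition. -/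
theorem fft_zero (j : Fin n → ι) (κ : Fin e → ι) (f : (Fin e → Fin n → ℤ) → U) (hf : MultiQuad f)
    (hadd : ∀ (M : Fin e → Fin n → ℤ) (c c' : Fin e), c ≠ c' → κ c = κ c' →
      f (Function.update M c (M c + M c')) = f M) :
    ∃ g : (Fin e → Fin n) → (Fin e → Fin n) → U, ∀ M : Fin e → Fin n → ℤ,
      (∀ c k, κ c ≠ j k → M c k = 0) →
      f M = ∑ I : Fin e → Fin n, ∑ J : Fin e → Fin n, (minor M I * minor M J) • g I J := by
  classical
  obtain ⟨F, hF, hFM⟩ := polarize (k₀ := k₀) f hf
  have hzero : ∀ (M : Fin e → Fin n → ℤ) (c : Fin e), f (Function.update M c 0) = 0 := by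
    intro M c
    have h := hf M c 0 0
    simp only [add_zero, sub_zero] at h
    have h2 : (2 : k₀) • f (Function.update M c 0) = 0 := by
      have h3 : f (Function.update M c 0) + f (Function.update M c 0) = 0 := by
        have h4 := h
        rw [two_nsmul] at h4
        have h5 : f (Function.update M c 0) + f (Function.update M c 0)
          + (f (Function.update M c 0) + f (Function.update M c 0))
          = f (Function.update M c 0) + f (Function.update M c 0) := h4.symm
        exact left_eq_add.1 h5.symm
      rw [two_smul]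
      exact h3
    exact (smul_eq_zero.1 h2).resolve_left two_ne_zero
  have heq : ∀ (c c' : Fin e), c ≠ c' → κ c = κ c' → ∀ M : Fin e → Fin n → ℤ, M c = M c' →
      F M M = 0 := by
    intro c c' hcc hκ M hM
    rw [hFM]
    have h := hadd (Function.update M c 0) c c' hcc hκ
    rw [Function.update_self, Function.update_of_ne hcc.symm, zero_add, Function.update_idem,
      ← hM, Function.update_eq_self, hzero] at h
    exact h
  have hZ : ∀ (c : Fin e) (c' : Fin e), c' ≠ id c → κ c' = κ (id c) →
      ∀ (p q : Fin e → Fin n → ℤ), p c' = q c → 2 • F p q + F (p ∘ Equiv.swap (id c) c') q = 0 := by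
    intro c c' hcc hκ p q hpq
    have hcc' : c ≠ c' := fun h => hcc h.symm
    refine exchange (k₀ := k₀) F hF c c' hcc' (fun M => ?_) (heq c c' hcc' hκ.symm) p q hpq
    rw [hFM, hFM]
    exact hadd M c' c hcc hκ
  have hS : ∀ (c c' : Fin e), κ (id c) = κ (id c') → ∀ (p q : Fin e → Fin n → ℤ),
      F (p ∘ Equiv.swap (id c) (id c')) (q ∘ Equiv.swap c c') = F p q := by
    intro c c' hκ p q
    by_cases hcc : c = c'
    · subst hcc
      simp
    · refine pol_swap (k₀ := k₀) F hF c c' (fun M => ?_) p q
      rw [hFM, hFM]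
      exact swap_invariant (k₀ := k₀) f hf c c' hcc (fun M => hadd M c' c (Ne.symm hcc) hκ.symm)
        (fun M => hadd M c c' hcc hκ) M
  obtain ⟨R, hR, hds⟩ := double_sum (k₀ := k₀) (U := U) (V := Fin n → ℤ) (C := Fin e) (C' := Fin e)
    id Function.injective_id (fun a b ha _ => absurd ⟨a, rfl⟩ ha) κ
  have h1 : ∀ (p q : Fin e → Fin n → ℤ) (c : Fin e) (x y : Fin n → ℤ),
      F (Function.update p c (x + y)) q = F (Function.update p c x) q + F (Function.update p c y) q :=
    fun p q c x y => hF.add c (Finset.mem_univ c) p q x y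
  have h2 : ∀ (p q : Fin e → Fin n → ℤ) (c : Fin e) (x y : Fin n → ℤ),
      F p (Function.update q c (x + y)) = F p (Function.update q c x) + F p (Function.update q c y) := by
    intro p q c x y
    have hs : ∀ z : Fin n → ℤ, F p (Function.update q c z)
        = F (Function.update p c z) (Function.update q c (p c)) := by
      intro z
      have h := hF.symm c (Finset.mem_univ c) p (Function.update q c z)
      rw [Function.update_self, Function.update_idem] at h
      exact h.symm
    rw [hs, hs, hs]
    exact h1 p (Function.update q c (p c)) c x y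
  refine ⟨fun I J => ((R : k₀)⁻¹) • (if (∀ c, j (I c) = κ c) ∧ (∀ c, j (J c) = κ (id c)) then
      F (fun c => Pi.single (I c) 1) (fun c => Pi.single (J c) 1) else 0), fun M hM => ?_⟩
  have hR0 : (R : k₀) ≠ 0 := by
    exact_mod_cast hR.ne'
  have h3 := hds F hZ hS M
  have h4 := double_sum_coord (id : Fin e → Fin e) j κ F h1 h2 M hM
  rw [h3] at h4
  have h5 : F M (M ∘ id) = f M := hFM M
  rw [h5] at h4
  have h6 : f M = (R : k₀)⁻¹ • ((R : k₀) • f M) := by
    rw [smul_smul, inv_mul_cancel₀ hR0, one_smul]
  rw [h6, h4, Finset.smul_sum]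
  refine Finset.sum_congr rfl fun I _ => ?_
  rw [Finset.smul_sum]
  refine Finset.sum_congr rfl fun J _ => ?_
  rw [smul_comm]
  congr 1
  congr!

end Pool.Agent.ZC.LC
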