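import Pool.Agent.Lib.MP_a1cc03_ag.LC.Defs
import Pool.Agent.Lib.MP_a1cc03_ag.LC.P1
import Pool.Agent.Lib.MP_a1cc03_ag.LC.P3
import Pool.Agent.Lib.MP_a1cc03_ag.LC.P4
import Pool.Agent.Lib.MP_a1cc03_ag.LC.P5
import Pool.Agent.Lib.MP_a1cc03_ag.LC.G1

/-! # Row T1: the first fundamental theorem with one linear argument -/

namespace Pool.Agent.ZC.LC

variable {k₀ : Type*} [Field k₀] [CharZero k₀] {U : Type*} [AddCommGroup U] [Module k₀ U] {ι : Type*}
  [DecidableEq ι] {e n : ℕ}

include k₀ in
/-- **Row T1.** The version of T0 with an additional linear argument of class `i`.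
Proof: `F` from `polarize` (P1), with values in `(Fin n → ℤ) →+ U` (a `k₀`-module). Put `C = Fin e`,
`C' = Fin (e + 1)`, `inc = Fin.castSucc`, classes `Fin.snoc κ i`, and
`F' p q = F (p ∘ Fin.castSucc) q (p (Fin.last e))`. Relation `(Z)` for `c' = castSucc d`: `exchange` (P3) evaluated at
`p (last e)`; for `c' = last e`: `exchange_point` (P4). `(S)`: P5. `F'` is additive in every `p c`, `c : C'`, and in every
`q c`. Apply `double_sum` (R1) and `double_sum_coord` (G1) with `u = Fin.snoc M v`. -/
theorem fft_one (j : Fin n → ι) (κ : Fin e → ι) (i : ι)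
    (f : (Fin e → Fin n → ℤ) → ((Fin n → ℤ) →+ U)) (hf : MultiQuad f)
    (hadd : ∀ (M : Fin e → Fin n → ℤ) (c c' : Fin e), c ≠ c' → κ c = κ c' →
      f (Function.update M c (M c + M c')) = f M)
    (hvan : ∀ (M : Fin e → Fin n → ℤ) (c : Fin e), κ c = i → f M (M c) = 0) :
    ∃ g : (Fin (e + 1) → Fin n) → (Fin e → Fin n) → U, ∀ (M : Fin e → Fin n → ℤ) (v : Fin n → ℤ),
      (∀ c k, κ c ≠ j k → M c k = 0) → (∀ k, i ≠ j k → v k = 0) →
      f M v = ∑ L : Fin (e + 1) → Fin n, ∑ J : Fin e → Fin n,
        (minor (Fin.snoc (α := fun _ => Fin n → ℤ) M v) L * minor M J) • g L J := by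
  classical
  obtain ⟨F, hF, hFM⟩ := polarize (k₀ := k₀) f hf
  have hzero : ∀ (M : Fin e → Fin n → ℤ) (c : Fin e), f (Function.update M c 0) = 0 := by
    intro M c
    have h := hf M c 0 0
    simp only [add_zero, sub_zero] at h
    have h2 : (2 : k₀) • f (Function.update M c 0) = 0 := by
      have h3 : f (Function.update M c 0) + f (Function.update M c 0) = 0 := by
        have h4 := h
        rw [two_nsmul] at h4
        have h5 : f (Function.update M c 0) + f (Function.update M c 0)
          + (f (Function.update M c 0) + f (Function.update M c 0))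
          = f (Function.update M c 0) + f (Function.update M c 0) := h4.symm
        exact left_eq_add.1 h5.symm
      rw [two_smul]
      exact h3
    exact (smul_eq_zero.1 h2).resolve_left two_ne_zero
  have heq : ∀ (c c' : Fin e), c ≠ c' → κ c = κ c' → ∀ M : Fin e → Fin n → ℤ, M c = M c' →
      F M M = 0 := by
    intro c c' hcc hκ M hM
    rw [hFM]
    have h := hadd (Function.update M c 0) c c' hcc hκ
    rw [Function.update_self, Function.update_of_ne hcc.symm, zero_add, Function.update_idem,
      ← hM, Function.update_eq_self, hzero] at h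
    exact h
  let κ' : Fin (e + 1) → ι := Fin.snoc (α := fun _ => ι) κ i
  have hκc : ∀ c : Fin e, κ' c.castSucc = κ c := fun c => by simp [κ']
  have hκl : κ' (Fin.last e) = i := by simp [κ']
  let F' : (Fin (e + 1) → Fin n → ℤ) → (Fin e → Fin n → ℤ) → U :=
    fun p q => F (fun c => p c.castSucc) q (p (Fin.last e))
  have hZ : ∀ (c : Fin e) (c' : Fin (e + 1)), c' ≠ Fin.castSucc c → κ' c' = κ' (Fin.castSucc c) →
      ∀ (p : Fin (e + 1) → Fin n → ℤ) (q : Fin e → Fin n → ℤ), p c' = q c →
        2 • F' p q + F' (p ∘ Equiv.swap (Fin.castSucc c) c') q = 0 := by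
    intro c c' hcc hκ p q hpq
    induction c' using Fin.lastCases with
    | last =>
      rw [hκl, hκc] at hκ
      have h := exchange_point (k₀ := k₀) F hF c (fun M => by rw [hFM]; exact hvan M c hκ.symm)
        (fun b => p b.castSucc) q
      have e1 : F' p q = F (fun b => p b.castSucc) q (q c) := by
        simp only [F', hpq]
      have e2 : F' (p ∘ Equiv.swap (Fin.castSucc c) (Fin.last e)) q
          = F (Function.update (fun b => p b.castSucc) c (q c)) q (p c.castSucc) := by
        have e3 : (fun b : Fin e => (p ∘ Equiv.swap (Fin.castSucc c) (Fin.last e)) b.castSucc)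
            = Function.update (fun b => p b.castSucc) c (q c) := by
          funext b
          by_cases hb : b = c
          · subst hb
            rw [Function.update_self, Function.comp_apply, Equiv.swap_apply_left, hpq]
          · rw [Function.update_of_ne hb, Function.comp_apply,
              Equiv.swap_apply_of_ne_of_ne (fun h => hb (Fin.castSucc_injective _ h))
                (Fin.castSucc_lt_last b).ne]
        simp only [F']
        rw [e3, Function.comp_apply, Equiv.swap_apply_right]
      rw [e1, e2]
      exact h
    | cast d =>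
      rw [hκc, hκc] at hκ
      have hdc : d ≠ c := fun h => hcc (by rw [h])
      have h := exchange (k₀ := k₀) F hF c d hdc.symm
        (fun M => by rw [hFM, hFM]; exact hadd M d c hdc hκ)
        (heq c d hdc.symm hκ.symm) (fun b => p b.castSucc) q hpq
      have e3 : (fun b : Fin e => (p ∘ Equiv.swap (Fin.castSucc c) (Fin.castSucc d)) b.castSucc)
          = (fun b => p b.castSucc) ∘ Equiv.swap c d := by
        funext b
        simp only [Function.comp_apply]
        congr 1
        by_cases hb : b = c
        · subst hb
          rw [Equiv.swap_apply_left, Equiv.swap_apply_left]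
        · by_cases hb' : b = d
          · subst hb'
            rw [Equiv.swap_apply_right, Equiv.swap_apply_right]
          · rw [Equiv.swap_apply_of_ne_of_ne hb hb',
              Equiv.swap_apply_of_ne_of_ne (fun h => hb (Fin.castSucc_injective _ h))
                (fun h => hb' (Fin.castSucc_injective _ h))]
      have e4 : (p ∘ Equiv.swap (Fin.castSucc c) (Fin.castSucc d)) (Fin.last e) = p (Fin.last e) := by
        rw [Function.comp_apply, Equiv.swap_apply_of_ne_of_ne (Fin.castSucc_lt_last c).ne'
          (Fin.castSucc_lt_last d).ne']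
      have h5 := DFunLike.congr_fun h (p (Fin.last e))
      simp only [F']
      rw [e3, e4]
      exact h5
  have hS : ∀ (c c' : Fin e), κ' (Fin.castSucc c) = κ' (Fin.castSucc c') →
      ∀ (p : Fin (e + 1) → Fin n → ℤ) (q : Fin e → Fin n → ℤ),
      F' (p ∘ Equiv.swap (Fin.castSucc c) (Fin.castSucc c')) (q ∘ Equiv.swap c c') = F' p q := by
    intro c c' hκ p q
    rw [hκc, hκc] at hκ
    by_cases hcc : c = c'
    · subst hcc
      simp
    · have h := pol_swap (k₀ := k₀) F hF c c' (fun M => by
        rw [hFM, hFM]
        exact swap_invariant (k₀ := k₀) f hf c c' hcc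
          (fun M => hadd M c' c (Ne.symm hcc) hκ.symm) (fun M => hadd M c c' hcc hκ) M)
        (fun b => p b.castSucc) q
      have e3 : (fun b : Fin e => (p ∘ Equiv.swap (Fin.castSucc c) (Fin.castSucc c')) b.castSucc)
          = (fun b => p b.castSucc) ∘ Equiv.swap c c' := by
        funext b
        simp only [Function.comp_apply]
        congr 1
        by_cases hb : b = c
        · subst hb
          rw [Equiv.swap_apply_left, Equiv.swap_apply_left]
        · by_cases hb' : b = c'
          · subst hb'
            rw [Equiv.swap_apply_right, Equiv.swap_apply_right]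
          · rw [Equiv.swap_apply_of_ne_of_ne hb hb',
              Equiv.swap_apply_of_ne_of_ne (fun h => hb (Fin.castSucc_injective _ h))
                (fun h => hb' (Fin.castSucc_injective _ h))]
      have e4 : (p ∘ Equiv.swap (Fin.castSucc c) (Fin.castSucc c')) (Fin.last e)
          = p (Fin.last e) := by
        rw [Function.comp_apply, Equiv.swap_apply_of_ne_of_ne (Fin.castSucc_lt_last c).ne'
          (Fin.castSucc_lt_last c').ne']
      simp only [F']
      rw [e3, e4, h]
  obtain ⟨R, hR, hds⟩ := double_sum (k₀ := k₀) (U := U) (V := Fin n → ℤ) (C := Fin e)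
    (C' := Fin (e + 1)) Fin.castSucc (Fin.castSucc_injective e) (by
      intro a b ha hb
      induction a using Fin.lastCases with
      | last =>
        induction b using Fin.lastCases with
        | last => rfl
        | cast b => exact absurd ⟨b, rfl⟩ hb
      | cast a => exact absurd ⟨a, rfl⟩ ha) κ'
  have h1 : ∀ (p : Fin (e + 1) → Fin n → ℤ) (q : Fin e → Fin n → ℤ) (c : Fin (e + 1))
      (x y : Fin n → ℤ),
      F' (Function.update p c (x + y)) q
        = F' (Function.update p c x) q + F' (Function.update p c y) q := by
    intro p q c x y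
    induction c using Fin.lastCases with
    | last =>
      have e1 : ∀ z : Fin n → ℤ, F' (Function.update p (Fin.last e) z) q
          = F (fun b => p b.castSucc) q z := by
        intro z
        have e2 : (fun b : Fin e => Function.update p (Fin.last e) z b.castSucc)
            = fun b => p b.castSucc := by
          funext b
          rw [Function.update_of_ne (Fin.castSucc_lt_last b).ne]
        simp only [F']
        rw [e2, Function.update_self]
      rw [e1, e1, e1, map_add]
    | cast c =>
      have e1 : ∀ z : Fin n → ℤ, F' (Function.update p c.castSucc z) q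
          = F (Function.update (fun b => p b.castSucc) c z) q (p (Fin.last e)) := by
        intro z
        have e2 : (fun b : Fin e => Function.update p c.castSucc z b.castSucc)
            = Function.update (fun b => p b.castSucc) c z := by
          funext b
          by_cases hb : b = c
          · subst hb
            rw [Function.update_self, Function.update_self]
          · rw [Function.update_of_ne hb,
              Function.update_of_ne (fun h => hb (Fin.castSucc_injective _ h))]
        simp only [F']
        rw [e2, Function.update_of_ne (Fin.castSucc_lt_last c).ne']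
      rw [e1, e1, e1, hF.add c (Finset.mem_univ c)]
      rfl
  have h2 : ∀ (p : Fin (e + 1) → Fin n → ℤ) (q : Fin e → Fin n → ℤ) (c : Fin e)
      (x y : Fin n → ℤ),
      F' p (Function.update q c (x + y))
        = F' p (Function.update q c x) + F' p (Function.update q c y) := by
    intro p q c x y
    have hs : ∀ z : Fin n → ℤ, F (fun b => p b.castSucc) (Function.update q c z)
        = F (Function.update (fun b => p b.castSucc) c z)
          (Function.update q c (p c.castSucc)) := by
      intro z
      have h := hF.symm c (Finset.mem_univ c) (fun b => p b.castSucc) (Function.update q c z)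
      rw [Function.update_self, Function.update_idem] at h
      exact h.symm
    simp only [F']
    rw [hs, hs, hs, hF.add c (Finset.mem_univ c)]
    rfl
  refine ⟨fun L J => ((R : k₀)⁻¹) • (if (∀ c, j (L c) = κ' c) ∧ (∀ c, j (J c) = κ' (Fin.castSucc c))
      then F' (fun c => Pi.single (L c) 1) (fun c => Pi.single (J c) 1) else 0),
    fun M v hM hv => ?_⟩
  have hR0 : (R : k₀) ≠ 0 := by
    exact_mod_cast hR.ne'
  have hu : ∀ c k, κ' c ≠ j k →
      (Fin.snoc (α := fun _ => Fin n → ℤ) M v : Fin (e + 1) → Fin n → ℤ) c k = 0 := by
    intro c k h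
    induction c using Fin.lastCases with
    | last =>
      rw [Fin.snoc_last]
      rw [hκl] at h
      exact hv k h
    | cast c =>
      rw [Fin.snoc_castSucc]
      rw [hκc] at h
      exact hM c k h
  have h3 := hds F' hZ hS (Fin.snoc (α := fun _ => Fin n → ℤ) M v)
  have h4 := double_sum_coord (Fin.castSucc : Fin e → Fin (e + 1)) j κ' F' h1 h2
    (Fin.snoc (α := fun _ => Fin n → ℤ) M v) hu
  rw [h3] at h4
  have e5 : ((Fin.snoc (α := fun _ => Fin n → ℤ) M v : Fin (e + 1) → Fin n → ℤ) ∘ Fin.castSucc)
      = M := by
    funext c
    simp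
  have e6 : (fun c : Fin e => (Fin.snoc (α := fun _ => Fin n → ℤ) M v :
      Fin (e + 1) → Fin n → ℤ) c.castSucc) = M := e5
  have h5 : F' (Fin.snoc (α := fun _ => Fin n → ℤ) M v)
      ((Fin.snoc (α := fun _ => Fin n → ℤ) M v : Fin (e + 1) → Fin n → ℤ) ∘ Fin.castSucc)
      = f M v := by
    rw [e5]
    simp only [F']
    rw [e6, Fin.snoc_last, hFM]
  rw [h5] at h4
  have h6 : f M v = (R : k₀)⁻¹ • ((R : k₀) • f M v) := by
    rw [smul_smul, inv_mul_cancel₀ hR0, one_smul]
  rw [h6, h4, Finset.smul_sum]
  refine Finset.sum_congr rfl fun I _ => ?_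
  rw [Finset.smul_sum]
  refine Finset.sum_congr rfl fun J _ => ?_
  rw [smul_comm]
  have e7 : Matrix.det (Matrix.of fun c r => (Fin.snoc (α := fun _ => Fin n → ℤ) M v :
      Fin (e + 1) → Fin n → ℤ) (Fin.castSucc c) (J r)) = minor M J := by
    unfold minor
    congr 1
    ext c r
    simp
  rw [e7]
  congr 1
  congr!

end Pool.Agent.ZC.LC
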