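import Pool.Agent.Lib.MP_a1cc03_ag.LC.H1
import Pool.Agent.Lib.MP_a1cc03_ag.LC.H2
import Pool.Agent.Lib.MP_a1cc03_ag.LC.T0
import Pool.Agent.Lib.MP_a1cc03_ag.LC.T1
import Pool.Agent.Lib.MP_a1cc03_ag.LC.L5
import Pool.Agent.Lib.MP_a1cc03_ag.LC.L6

/-! # Row H3: the main theorem -/

noncomputable section

namespace Pool.Agent.ZC.LC

open WeierstrassCurve

variable {K : Type} [Field K] [DecidableEq K] {ι : Type} [DecidableEq ι]
  (E : ι → WeierstrassCurve K) {n e : ℕ} (j : Fin n → ι) (κ : Fin e → ι)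

/-- **Row H3.** The main theorem. `U`, `q` from `exists_rational` (L5) for `R = RatLin E j κ`; the class
of `[M; 0]` by `fft_zero` (T0; hypotheses H1a, L1), the pointed part by `exists_pointed` (H1b), `fft_one` (T1, applied
with `U := A i →+ U`, `k₀ := ℚ`) and `pointed_sum` (H1c) (`Pi.single k (a k)` is the point `v ⊗ x` for `i = j k`,
`v = Pi.single k 1`, `x = a k`), and H2. The additivity hypothesis from `linCycle_additive` (L6). -/
theorem main_linear (A : ∀ i, AddSubgroup (E i).toAffine.Point)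
    (hprod : ∀ z : FreeAbelianGroup (∀ k, (E (j k)).toAffine.Point),
        z ∈ AddSubgroup.closure (FreeAbelianGroup.of '' {x | ∀ k, x k ∈ A (j k)}) →
        degree (fun k => E (j k)) z = 0 → albanese (fun k => E (j k)) z = 0 →
        ∃ N : ℕ, 0 < N ∧ N • z ∈ RatEqPi (fun k => E (j k)))
    {m : ℕ} (c : Fin m → ℤ) (M : Fin m → Fin e → Fin n → ℤ)
    (a : Fin m → ∀ k, (E (j k)).toAffine.Point)
    (hM : ∀ s b k, κ b ≠ j k → M s b k = 0) (ha : ∀ s k, a s k ∈ A (j k))
    (hcl : ∀ I J : Fin e → Fin n, ∑ s, c s * minor (M s) I * minor (M s) J = 0)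
    (hAJ : ∀ (J : Fin e → Fin n) (L : Fin (e + 1) → Fin n), ∃ N : ℕ, 0 < N ∧
      N • ∑ s, (c s * minor (M s) J) • pointMinor E j (M s) (a s) L = 0) :
    ∃ N : ℕ, 0 < N ∧ N • ∑ s, c s • linCycle E j κ (M s) (a s) ∈ RatLin E j κ := by
  classical
  obtain ⟨U, iU, mU, q, hq⟩ :=
    exists_rational (FreeAbelianGroup (Set (∀ k, (E (j k)).toAffine.Point))) (RatLin E j κ)
  have hq0 : ∀ z ∈ RatLin E j κ, q z = 0 := fun z hz => (hq z).2 ⟨1, one_pos, by simpa using hz⟩
  have hadd : ∀ (M : Fin e → Fin n → ℤ) (a b : ∀ k, (E (j k)).toAffine.Point),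
      (∀ k, a k ∈ A (j k)) → (∀ k, b k ∈ A (j k)) →
      q (linCycle E j κ M (a + b)) - q (linCycle E j κ M 0)
        = (q (linCycle E j κ M a) - q (linCycle E j κ M 0))
          + (q (linCycle E j κ M b) - q (linCycle E j κ M 0)) := by
    intro M a b ha hb
    have h := (hq _).2 (linCycle_additive E j κ A hprod M a b ha hb)
    rw [map_add, map_sub, map_sub] at h
    rw [← sub_eq_zero, ← h]
    abel
  obtain ⟨g₀, hg₀⟩ := fft_zero (k₀ := ℚ) j κ (fun M => q (linCycle E j κ M 0))
    (class_multiQuad E j κ q hq0 0)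
    (fun M c c' hcc hκ => by rw [linCycle_add_col E j κ M c c' hcc hκ 0])
  choose f₁ hf₁ hMQ hcol hvan using exists_pointed E j κ q hq0 A hadd
  have hft := fun i => fft_one (k₀ := ℚ) j κ i (f₁ i) (hMQ i) (hcol i) (hvan i)
  choose g₁ hg₁ using hft
  apply (hq _).1
  rw [map_sum]
  have e1 : ∀ s, q (c s • linCycle E j κ (M s) (a s))
      = c s • q (linCycle E j κ (M s) 0)
        + c s • (q (linCycle E j κ (M s) (a s)) - q (linCycle E j κ (M s) 0)) := by
    intro s
    rw [map_zsmul, ← smul_add]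
    congr 1
    abel
  rw [Finset.sum_congr rfl fun s _ => e1 s, Finset.sum_add_distrib]
  have e2 : ∑ s, c s • q (linCycle E j κ (M s) 0) = 0 := by
    have h1 : ∀ s, c s • q (linCycle E j κ (M s) 0)
        = ∑ I : Fin e → Fin n, ∑ J : Fin e → Fin n,
          (c s * minor (M s) I * minor (M s) J) • g₀ I J := by
      intro s
      rw [hg₀ (M s) (hM s), Finset.smul_sum]
      refine Finset.sum_congr rfl fun I _ => ?_
      rw [Finset.smul_sum]
      refine Finset.sum_congr rfl fun J _ => ?_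
      rw [smul_smul, mul_assoc]
    rw [Finset.sum_congr rfl fun s _ => h1 s, Finset.sum_comm]
    refine Finset.sum_eq_zero fun I _ => ?_
    rw [Finset.sum_comm]
    refine Finset.sum_eq_zero fun J _ => ?_
    rw [← Finset.sum_smul, hcl I J, zero_smul]
  have e3 : ∑ s, c s • (q (linCycle E j κ (M s) (a s)) - q (linCycle E j κ (M s) 0)) = 0 := by
    rw [← pointed_zero E j A g₁ c M a ha hAJ]
    refine Finset.sum_congr rfl fun s _ => ?_
    congr 1
    rw [pointed_sum E j κ q A hadd (M s) (a s) (ha s)]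
    refine Finset.sum_congr rfl fun k _ => ?_
    have h2 : (fun k' => (Pi.single k (1 : ℤ) : Fin n → ℤ) k' •
        (Pi.single (j k) ((⟨a s k, ha s k⟩ : A (j k)) : (E (j k)).toAffine.Point) :
          ∀ i, (E i).toAffine.Point) (j k'))
        = (Pi.single k (a s k) : ∀ k, (E (j k)).toAffine.Point) := by
      funext k'
      by_cases h : k' = k
      · subst h
        simp
      · rw [Pi.single_eq_of_ne h, Pi.single_eq_of_ne h, zero_smul]
    have h3 := hf₁ (j k) (M s) (Pi.single k 1) ⟨a s k, ha s k⟩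
    rw [h2] at h3
    rw [← h3, hg₁ (j k) (M s) (Pi.single k 1) (hM s) (by
      intro k' hk'
      rw [Pi.single_eq_of_ne]
      rintro rfl
      exact hk' rfl)]
    simp only [AddMonoidHom.finsetSum_apply, AddMonoidHom.coe_smul, Pi.smul_apply]
  rw [e2, e3, add_zero]

end Pool.Agent.ZC.LC
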