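import Pool.Agent.Lib.MP_a1cc03_ag.LC.AlgDefs

/-! # Row P2: a symmetric multiadditive function which vanishes on the diagonal is zero -/

namespace Pool.Agent.ZC.LC

variable {k₀ : Type*} [Field k₀] [CharZero k₀] {U : Type*} [AddCommGroup U] [Module k₀ U] {e n : ℕ}

variable (k₀) in
include k₀ in
theorem p2_two {u : U} (h : u + u = 0) : u = 0 := by
  have h1 : (2 : k₀) • u = 0 := by rw [two_smul, h]
  exact (smul_eq_zero.mp h1).resolve_left two_ne_zero

include k₀ in
/-- **Row P2.** Proof: induction on `D` (`Finset.induction_on`, generalising): if `D = ∅` the hypothesis
is the conclusion. For `insert d D`: it suffices (induction hypothesis) to show `F p q = 0` when `p = q` on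
`D`; put `x = p d`, `y = q d`; then
`F (update p d (x+y)) (update q d (x+y)) = F(x,x) + F(x,y) + F(y,x) + F(y,y)` (additivity in `q d` follows
from `symm` and `add`), the terms with equal `d`-entries vanish by hypothesis and `F(x,y) = F(y,x)`. So
`2 • F p q = 0`. -/
theorem vanish_of_diag (D : Finset (Fin e)) (F : (Fin e → Fin n → ℤ) → (Fin e → Fin n → ℤ) → U)
    (hF : PolOn D F) (h0 : ∀ p q : Fin e → Fin n → ℤ, (∀ c ∈ D, p c = q c) → F p q = 0)
    (p q : Fin e → Fin n → ℤ) : F p q = 0 := by
  classical
  induction D using Finset.induction_on with
  | empty => exact h0 p q (by simp)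
  | insert d D hd ih =>
    refine ih ⟨fun c hc => hF.add c (Finset.mem_insert_of_mem hc),
      fun c hc => hF.symm c (Finset.mem_insert_of_mem hc)⟩ ?_
    intro p q hpq
    have hadd : ∀ a a' b, F (Function.update p d (a + a')) (Function.update q d b) =
        F (Function.update p d a) (Function.update q d b) +
          F (Function.update p d a') (Function.update q d b) := fun a a' b =>
      hF.add d (Finset.mem_insert_self d D) p (Function.update q d b) a a'
    have hsymm : ∀ a b, F (Function.update p d b) (Function.update q d a) =
        F (Function.update p d a) (Function.update q d b) := by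
      intro a b
      have h1 := hF.symm d (Finset.mem_insert_self d D) (Function.update p d a)
        (Function.update q d b)
      simpa only [Function.update_self, Function.update_idem] using h1
    have hdiag : ∀ a, F (Function.update p d a) (Function.update q d a) = 0 := by
      intro a
      refine h0 _ _ fun c hc => ?_
      rcases eq_or_ne c d with rfl | hcd
      · rw [Function.update_self, Function.update_self]
      · rw [Function.update_of_ne hcd, Function.update_of_ne hcd]
        exact hpq c (Finset.mem_of_mem_insert_of_ne hc hcd)
    have h2 := hdiag (p d + q d)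
    rw [hadd, ← hsymm (p d) (p d + q d), ← hsymm (q d) (p d + q d), hadd, hadd, hdiag, hdiag,
      zero_add, add_zero, hsymm (p d) (q d)] at h2
    have h3 := p2_two k₀ h2
    rwa [Function.update_eq_self, Function.update_eq_self] at h3

end Pool.Agent.ZC.LC
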