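import Pool.Agent.Lib.MP_a1cc03_ag.LC.Defs

/-!
# Cycles on quotients of products of elliptic curves (MP_a1cc03_ag): definitions

`X` is the product of the Weierstrass curves `E (j k)`, `k < n`, and `G` is a finite group which acts on the
`K`-points of `X` by maps `x ↦ R x + t`, where `R` is an integer matrix and `t` a point. The rational
equivalence classes of cycles on `X/G`, with rational coefficients, are those of `X` modulo the cycles
`[Z] - [gZ]`.
-/

noncomputable section

namespace Pool.Agent.ZC

open WeierstrassCurve

variable {K : Type} [Field K] [DecidableEq K] {ι : Type} [DecidableEq ι]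
  (E : ι → WeierstrassCurve K) {n e : ℕ} (j : Fin n → ι)

/-- The map `x ↦ R x + t` of `X` to itself, with `k`-th coordinate the sum of `t k` and the
`R l k • x l` over all `l` with `j l = j k`. -/
def affMap (R : Fin n → Fin n → ℤ) (t x : ∀ k, (E (j k)).toAffine.Point) :
    ∀ k, (E (j k)).toAffine.Point :=
  linMap E j j R x + t

/-- The matrix of `z ↦ R (M z)`. -/
def compMat (R : Fin n → Fin n → ℤ) (M : Fin e → Fin n → ℤ) : Fin e → Fin n → ℤ :=
  fun c k => ∑ l, M c l * R l k

/-- The group generated by the cycles `[Z] - [g Z]`, where `g` is in `G` and `Z` is a set of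
`K`-points of `X`. -/
def OrbitRel (G : Type) [SMul G (∀ k, (E (j k)).toAffine.Point)] :
    AddSubgroup (FreeAbelianGroup (Set (∀ k, (E (j k)).toAffine.Point))) :=
  AddSubgroup.closure {z | ∃ (g : G) (Z : Set (∀ k, (E (j k)).toAffine.Point)),
    z = FreeAbelianGroup.of Z - FreeAbelianGroup.of ((fun x => g • x) '' Z)}

/-- The group generated by the zero-cycles `[x] - [g x]`, where `g` is in `G` and `x` is a `K`-point
of `X`. -/
def PointRel (G : Type) [SMul G (∀ k, (E (j k)).toAffine.Point)] :
    AddSubgroup (FreeAbelianGroup (∀ k, (E (j k)).toAffine.Point)) :=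
  AddSubgroup.closure {z | ∃ (g : G) (x : ∀ k, (E (j k)).toAffine.Point),
    z = FreeAbelianGroup.of x - FreeAbelianGroup.of (g • x)}

end Pool.Agent.ZC
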